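import Pool.Agent.H113.MS.Harris

/-!
# Averaging over the permutations of a block
-/

set_option autoImplicit false

namespace Pool.Agent.H113.MS

open Finset

set_option linter.unusedSectionVars false

variable {α : Type*} [LinearOrder α] [Fintype α]

/-- the permutations which fix everything outside of `B` -/
def blockPerms (B : Finset α) : Finset (Equiv.Perm α) :=
  Finset.univ.filter fun π => ∀ i, i ∉ B → π i = i

theorem mem_blockPerms {B : Finset α} {π : Equiv.Perm α} :
    π ∈ blockPerms B ↔ ∀ i, i ∉ B → π i = i := by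
  simp [blockPerms]

theorem blockPerms_mul {B : Finset α} {π σ : Equiv.Perm α} (hπ : π ∈ blockPerms B)
    (hσ : σ ∈ blockPerms B) : π * σ ∈ blockPerms B := by
  rw [mem_blockPerms] at *
  intro i hi
  rw [Equiv.Perm.mul_apply, hσ i hi, hπ i hi]

theorem blockPerms_inv {B : Finset α} {π : Equiv.Perm α} (hπ : π ∈ blockPerms B) :
    π⁻¹ ∈ blockPerms B := by
  rw [mem_blockPerms] at *
  intro i hi
  rw [Equiv.Perm.inv_eq_iff_eq, hπ i hi]

theorem map_one' (S : Finset α) : S.map (1 : Equiv.Perm α).toEmbedding = S := by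
  ext i
  rw [Finset.mem_map]
  exact ⟨fun ⟨a, h, e⟩ => by rw [← e]; exact h, fun h => ⟨i, h, rfl⟩⟩

theorem map_mul (π σ : Equiv.Perm α) (S : Finset α) :
    S.map (π * σ).toEmbedding = (S.map σ.toEmbedding).map π.toEmbedding := by
  rw [Finset.map_map]
  rfl

theorem map_sdiff_block {B : Finset α} {π : Equiv.Perm α} (hπ : π ∈ blockPerms B)
    (S : Finset α) : S.map π.toEmbedding \ B = S \ B := by
  rw [mem_blockPerms] at hπ
  have hB : ∀ i, i ∈ B → π i ∈ B := by
    intro i hi
    by_contra h
    have := hπ _ h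
    have e := π.injective this
    rw [e] at h
    exact h hi
  ext i
  simp only [Finset.mem_sdiff, Finset.mem_map, Equiv.coe_toEmbedding]
  constructor
  · rintro ⟨⟨j, hj, rfl⟩, h2⟩
    have hjB : j ∉ B := fun h => h2 (hB j h)
    rw [hπ j hjB]
    exact ⟨hj, hjB⟩
  · rintro ⟨h1, h2⟩
    exact ⟨⟨i, h1, hπ i h2⟩, h2⟩

/-- transitivity of the block permutations -/
theorem exists_blockPerm {B : Finset α} : ∀ (N : ℕ) (S S' : Finset α), (S' \ S).card ≤ N →
    S.card = S'.card → S \ B = S' \ B → ∃ σ ∈ blockPerms B, S.map σ.toEmbedding = S' := by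
  intro N
  induction N with
  | zero =>
    intro S S' hN hc _
    refine ⟨1, mem_blockPerms.mpr fun _ _ => rfl, ?_⟩
    have h1 : S' ⊆ S := by
      rw [← Finset.sdiff_eq_empty_iff_subset]
      exact Finset.card_eq_zero.mp (Nat.le_zero.mp hN)
    have h2 : S' = S := Finset.eq_of_subset_of_card_le h1 hc.le
    rw [h2, map_one']
  | succ N ih =>
    intro S S' hN hc hB
    by_cases h0 : S' \ S = ∅
    · refine ih S S' (by rw [h0]; simp) hc hB
    obtain ⟨j, hj⟩ := Finset.nonempty_iff_ne_empty.mpr h0
    have hcards : (S \ S').card = (S' \ S).card := by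
      have h1 := Finset.card_sdiff_add_card_inter S S'
      have h2 := Finset.card_sdiff_add_card_inter S' S
      rw [Finset.inter_comm] at h2
      omega
    obtain ⟨i, hi⟩ : (S \ S').Nonempty := by
      rw [← Finset.card_pos, hcards]
      exact Finset.card_pos.mpr ⟨j, hj⟩
    have hj' := Finset.mem_sdiff.mp hj
    have hi' := Finset.mem_sdiff.mp hi
    have hiB : i ∈ B := by
      by_contra h
      have : i ∈ S \ B := Finset.mem_sdiff.mpr ⟨hi'.1, h⟩
      rw [hB, Finset.mem_sdiff] at this
      exact hi'.2 this.1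
    have hjB : j ∈ B := by
      by_contra h
      have : j ∈ S' \ B := Finset.mem_sdiff.mpr ⟨hj'.1, h⟩
      rw [← hB, Finset.mem_sdiff] at this
      exact hj'.2 this.1
    have hsw : Equiv.swap i j ∈ blockPerms B := by
      rw [mem_blockPerms]
      intro a ha
      apply Equiv.swap_apply_of_ne_of_ne
      · rintro rfl; exact ha hiB
      · rintro rfl; exact ha hjB
    set S1 := S.map (Equiv.swap i j).toEmbedding with hS1
    have hmem : ∀ a, a ∈ S1 ↔ (Equiv.swap i j) a ∈ S := by
      intro a
      rw [hS1, Finset.mem_map_equiv, Equiv.symm_swap]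
    have hlt : (S' \ S1).card ≤ N := by
      have h1 : S' \ S1 ⊆ (S' \ S).erase j := by
        intro a ha
        rw [Finset.mem_sdiff, hmem] at ha
        rw [Finset.mem_erase, Finset.mem_sdiff]
        have haj : a ≠ j := by
          rintro rfl
          apply ha.2
          rw [Equiv.swap_apply_right]
          exact hi'.1
        have hai : a ≠ i := by
          rintro rfl
          exact hi'.2 ha.1
        rw [Equiv.swap_apply_of_ne_of_ne hai haj] at ha
        exact ⟨haj, ha⟩
      have h2 := Finset.card_le_card h1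
      rw [Finset.card_erase_of_mem hj] at h2
      omega
    obtain ⟨σ, hσ, hσS⟩ := ih S1 S' hlt (by rw [hS1, Finset.card_map, hc])
      (by rw [hS1, map_sdiff_block hsw, hB])
    exact ⟨σ * Equiv.swap i j, blockPerms_mul hσ hsw, by rw [map_mul, ← hS1, hσS]⟩

/-- the component of the `k`-sets which agree with `P` outside of `B` -/
def comp (k : ℕ) (B P : Finset α) : Finset (Finset α) :=
  (Finset.univ.powersetCard k).filter fun S => S \ B = P

theorem mem_comp {k : ℕ} {B P S : Finset α} : S ∈ comp k B P ↔ S.card = k ∧ S \ B = P := by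
  simp [comp, Finset.mem_powersetCard]

/-- how many block permutations take `S` into `Q` -/
def nperm (B : Finset α) (Q : Finset (Finset α)) (S : Finset α) : ℕ :=
  ((blockPerms B).filter fun π => S.map π.toEmbedding ∈ Q).card

theorem nperm_eq {k : ℕ} (B : Finset α) (Q : Finset (Finset α)) {P S S' : Finset α}
    (hS : S ∈ comp k B P) (hS' : S' ∈ comp k B P) : nperm B Q S = nperm B Q S' := by
  rw [mem_comp] at hS hS'
  obtain ⟨σ, hσ, rfl⟩ := exists_blockPerm (B := B) _ S S' le_rfl (hS.1.trans hS'.1.symm)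
    (hS.2.trans hS'.2.symm)
  unfold nperm
  symm
  refine Finset.card_bij (fun π _ => π * σ) ?_ ?_ ?_
  · intro π hπ
    rw [Finset.mem_filter] at hπ ⊢
    exact ⟨blockPerms_mul hπ.1 hσ, by rw [map_mul]; exact hπ.2⟩
  · intro π _ π' _ h
    exact mul_right_cancel h
  · intro π hπ
    rw [Finset.mem_filter] at hπ
    refine ⟨π * σ⁻¹, ?_, by simp⟩
    rw [Finset.mem_filter]
    refine ⟨blockPerms_mul hπ.1 (blockPerms_inv hσ), ?_⟩
    rw [← map_mul]
    simpa using hπ.2

theorem comp_card_mul_nperm {k : ℕ} (B : Finset α) (Q : Finset (Finset α)) {P S : Finset α}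
    (hS : S ∈ comp k B P) :
    (comp k B P).card * nperm B Q S =
      (blockPerms B).card * ((comp k B P).filter (· ∈ Q)).card := by
  have h1 : ∑ S' ∈ comp k B P, nperm B Q S' = (comp k B P).card * nperm B Q S := by
    rw [Finset.sum_congr rfl (fun S' hS' => nperm_eq B Q hS' hS), Finset.sum_const, smul_eq_mul]
  rw [← h1]
  unfold nperm
  simp_rw [Finset.card_filter]
  rw [Finset.sum_comm]
  rw [← smul_eq_mul, ← Finset.sum_const]
  refine Finset.sum_congr rfl fun π hπ => ?_
  refine Finset.sum_bij (fun S' _ => S'.map π.toEmbedding) ?_ ?_ ?_ ?_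
  · intro S' hS'
    rw [mem_comp] at hS' ⊢
    exact ⟨by rw [Finset.card_map, hS'.1], by rw [map_sdiff_block hπ, hS'.2]⟩
  · intro S1 _ S2 _ h
    exact Finset.map_injective _ h
  · intro S' hS'
    refine ⟨S'.map (π⁻¹).toEmbedding, ?_, ?_⟩
    · rw [mem_comp] at hS' ⊢
      exact ⟨by rw [Finset.card_map, hS'.1], by rw [map_sdiff_block (blockPerms_inv hπ), hS'.2]⟩
    · rw [← map_mul, mul_inv_cancel, map_one']
  · intro S' _
    rfl

/-- the members of a family in a component, counted inside the block -/
theorem card_comp_filter {k : ℕ} (B : Finset α) (Q : Finset (Finset α)) (P : Finset α)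
    (hP : Disjoint P B) (hPk : P.card ≤ k) :
    ((comp k B P).filter (· ∈ Q)).card = cnt (· ∈ Q) P B (k - P.card) := by
  classical
  rw [cnt_def]
  symm
  refine Finset.card_bij (fun z _ => P ∪ z) ?_ ?_ ?_
  · intro z hz
    rw [Finset.mem_filter, Finset.mem_powersetCard] at hz
    rw [Finset.mem_filter, mem_comp]
    have hPz : Disjoint P z := hP.mono_right hz.1.1
    refine ⟨⟨?_, ?_⟩, hz.2⟩
    · rw [Finset.card_union_of_disjoint hPz, hz.1.2]
      omega
    · rw [Finset.union_sdiff_distrib, Finset.sdiff_eq_empty_iff_subset.mpr hz.1.1,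
        Finset.union_empty, Finset.sdiff_eq_self_of_disjoint hP]
  · intro z hz z' hz' h
    rw [Finset.mem_filter, Finset.mem_powersetCard] at hz hz'
    have h1 : (P ∪ z) \ P = (P ∪ z') \ P := by rw [h]
    rwa [Finset.union_sdiff_cancel_left (hP.mono_right hz.1.1),
      Finset.union_sdiff_cancel_left (hP.mono_right hz'.1.1)] at h1
  · intro S hS
    rw [Finset.mem_filter, mem_comp] at hS
    have h1 : P ∪ (S ∩ B) = S := by
      rw [← hS.1.2, Finset.sdiff_union_inter]
    refine ⟨S ∩ B, ?_, h1⟩
    rw [Finset.mem_filter, Finset.mem_powersetCard, h1]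
    refine ⟨⟨Finset.inter_subset_right, ?_⟩, hS.2⟩
    have h2 := Finset.card_sdiff_add_card_inter S B
    rw [hS.1.2, hS.1.1] at h2
    omega

/-- **Averaging.** If two families of `k`-sets are closed under shifts inside of a block and some
component contains a common member and a common non-member, then some permutation of the block
makes the first family meet the second one in fewer sets. -/
theorem exists_perm_lt {k : ℕ} (B : Finset α) (H Q : Finset (Finset α))
    (hHk : ∀ S ∈ H, S.card = k) (hQk : ∀ S ∈ Q, S.card = k)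
    (hH : BClosed B (· ∈ H)) (hQ : BClosed B (· ∈ Q)) (x y : Finset α)
    (hy : y.card = k) (hxy : x \ B = y \ B) (hHx : x ∈ H) (hQx : x ∈ Q) (hHy : y ∉ H)
    (hQy : y ∉ Q) :
    ∃ π ∈ blockPerms B, (H.filter fun S => S.map π.toEmbedding ∈ Q).card <
      (H.filter (· ∈ Q)).card := by
  classical
  by_contra hcon
  push Not at hcon
  set W := (blockPerms B).card with hW
  have hWpos : 0 < W := Finset.card_pos.mpr ⟨1, mem_blockPerms.mpr fun _ _ => rfl⟩
  -- the sum over the permutations
  have h1 : W * (H.filter (· ∈ Q)).card ≤ ∑ S ∈ H, nperm B Q S := by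
    have h2 : ∑ S ∈ H, nperm B Q S =
        ∑ π ∈ blockPerms B, (H.filter fun S => S.map π.toEmbedding ∈ Q).card := by
      unfold nperm
      simp_rw [Finset.card_filter]
      rw [Finset.sum_comm]
    rw [h2, hW, ← smul_eq_mul, ← Finset.sum_const]
    exact Finset.sum_le_sum hcon
  -- the numbers for the components
  have hcard : ∀ (X : Finset (Finset α)) (P : Finset α), (∀ S ∈ X, S.card = k) →
      X.filter (fun S => S \ B = P) = (comp k B P).filter (· ∈ X) := by
    intro X P hX
    ext S
    simp only [Finset.mem_filter, mem_comp]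
    constructor
    · rintro ⟨a, b⟩; exact ⟨⟨hX S a, b⟩, a⟩
    · rintro ⟨⟨_, b⟩, c⟩; exact ⟨c, b⟩
  have hval : ∀ P : Finset α, (H.filter (fun S => S \ B = P)).Nonempty →
      Disjoint P B ∧ P.card ≤ k := by
    rintro P ⟨S, hS⟩
    rw [Finset.mem_filter] at hS
    rw [← hS.2]
    exact ⟨Finset.sdiff_disjoint, (hHk S hS.1) ▸ Finset.card_le_card Finset.sdiff_subset⟩
  have hcompcard : ∀ P : Finset α, Disjoint P B → P.card ≤ k →
      (comp k B P).card = B.card.choose (k - P.card) := by
    intro P hP hPk
    have h2 := card_comp_filter (k := k) B (Finset.univ) P hP hPk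
    rw [Finset.filter_true_of_mem (fun _ _ => Finset.mem_univ _)] at h2
    rw [h2, cnt_def, Finset.filter_true_of_mem (fun _ _ => Finset.mem_univ _),
      Finset.card_powersetCard]
  set hP : Finset α → ℕ := fun P => (H.filter (fun S => S \ B = P)).card with hhP
  set qP : Finset α → ℕ := fun P => (Q.filter (fun S => S \ B = P)).card with hqP
  set gP : Finset α → ℕ := fun P => ((H.filter (· ∈ Q)).filter (fun S => S \ B = P)).card with hgP
  -- Harris
  have hharris : ∀ P, hP P * qP P ≤ (comp k B P).card * gP P := by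
    intro P
    by_cases hne : (H.filter (fun S => S \ B = P)).Nonempty
    · obtain ⟨hd, hk⟩ := hval P hne
      rw [hcompcard P hd hk]
      simp only [hhP, hqP, hgP]
      rw [hcard H P hHk, hcard Q P hQk, hcard (H.filter (· ∈ Q)) P (fun S hS =>
        hHk S (Finset.mem_filter.mp hS).1), card_comp_filter B H P hd hk,
        card_comp_filter B Q P hd hk, card_comp_filter B _ P hd hk]
      have h2 := harris (· ∈ H) (· ∈ Q) B P (k - P.card) hd hH hQ
      simpa only [Finset.mem_filter] using h2
    · rw [Finset.not_nonempty_iff_eq_empty] at hne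
      simp only [hhP, hne, Finset.card_empty, zero_mul]
      exact Nat.zero_le _
  have hstrict : hP (x \ B) * qP (x \ B) < (comp k B (x \ B)).card * gP (x \ B) := by
    have hne : (H.filter (fun S => S \ B = x \ B)).Nonempty :=
      ⟨x, by rw [Finset.mem_filter]; exact ⟨hHx, rfl⟩⟩
    obtain ⟨hd, hk⟩ := hval _ hne
    rw [hcompcard _ hd hk]
    simp only [hhP, hqP, hgP]
    rw [hcard H _ hHk, hcard Q _ hQk, hcard (H.filter (· ∈ Q)) _ (fun S hS =>
      hHk S (Finset.mem_filter.mp hS).1), card_comp_filter B H _ hd hk,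
      card_comp_filter B Q _ hd hk, card_comp_filter B _ _ hd hk]
    have ex : (x \ B) ∪ (x ∩ B) = x := Finset.sdiff_union_inter x B
    have ey : (x \ B) ∪ (y ∩ B) = y := by rw [hxy]; exact Finset.sdiff_union_inter y B
    have h2 := harris_strict (· ∈ H) (· ∈ Q) B (x \ B) (k - (x \ B).card) hd hH hQ
      (x ∩ B) (y ∩ B) (by
        rw [Finset.mem_powersetCard]
        refine ⟨Finset.inter_subset_right, ?_⟩
        have h3 := Finset.card_sdiff_add_card_inter x B
        rw [hHk x hHx] at h3
        omega) (by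
        rw [Finset.mem_powersetCard]
        refine ⟨Finset.inter_subset_right, ?_⟩
        have h3 := Finset.card_sdiff_add_card_inter y B
        rw [hy] at h3
        rw [hxy]
        omega) (by rw [ex]; exact hHx) (by rw [ex]; exact hQx) (by rw [ey]; exact hHy)
        (by rw [ey]; exact hQy)
    simpa only [Finset.mem_filter] using h2
  -- the sum in terms of the components
  have h3 : ∀ S ∈ H, (nperm B Q S : ℚ) = W * qP (S \ B) / (comp k B (S \ B)).card := by
    intro S hS
    have hmem : S ∈ comp k B (S \ B) := mem_comp.mpr ⟨hHk S hS, rfl⟩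
    have h4 := comp_card_mul_nperm B Q hmem
    have h5 : (0 : ℚ) < (comp k B (S \ B)).card := by
      exact_mod_cast Finset.card_pos.mpr ⟨S, hmem⟩
    rw [eq_div_iff h5.ne']
    have h6 : qP (S \ B) = ((comp k B (S \ B)).filter (· ∈ Q)).card := by
      simp only [hqP]
      rw [hcard Q _ hQk]
    rw [h6, mul_comm]
    exact_mod_cast h4
  have h4 : (∑ S ∈ H, (nperm B Q S : ℚ)) =
      W * ∑ P : Finset α, (hP P * qP P : ℚ) / (comp k B P).card := by
    rw [Finset.sum_congr rfl h3, ← Finset.sum_fiberwise H (fun S => S \ B), Finset.mul_sum]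
    refine Finset.sum_congr rfl fun P _ => ?_
    rw [Finset.sum_congr rfl (g := fun _ => (W : ℚ) * qP P / (comp k B P).card)]
    · rw [Finset.sum_const, nsmul_eq_mul]
      simp only [hhP]
      ring
    · intro S hS
      rw [(Finset.mem_filter.mp hS).2]
  have h5 : ((H.filter (· ∈ Q)).card : ℚ) = ∑ P : Finset α, (gP P : ℚ) := by
    have : (H.filter (· ∈ Q)).card = ∑ P : Finset α, gP P := by
      simp only [hgP]
      rw [Finset.card_eq_sum_card_fiberwise (t := Finset.univ) (f := fun S => S \ B)
        (fun _ _ => Finset.mem_coe.mpr (Finset.mem_univ _))]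
    rw [this]
    push_cast
    rfl
  have h6 : ∑ P : Finset α, (hP P * qP P : ℚ) / (comp k B P).card <
      ∑ P : Finset α, (gP P : ℚ) := by
    refine Finset.sum_lt_sum ?_ ⟨x \ B, Finset.mem_univ _, ?_⟩
    · intro P _
      rcases Nat.eq_zero_or_pos (comp k B P).card with h0 | h0
      · rw [h0]
        simp
      · rw [div_le_iff₀ (by exact_mod_cast h0), mul_comm (gP P : ℚ)]
        exact_mod_cast hharris P
    · have h0 : 0 < (comp k B (x \ B)).card :=
        Finset.card_pos.mpr ⟨x, mem_comp.mpr ⟨hHk x hHx, rfl⟩⟩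
      rw [div_lt_iff₀ (by exact_mod_cast h0), mul_comm (gP _ : ℚ)]
      exact_mod_cast hstrict
  have h7 : (W : ℚ) * (H.filter (· ∈ Q)).card ≤ ∑ S ∈ H, (nperm B Q S : ℚ) := by
    exact_mod_cast h1
  rw [h4, h5] at h7
  have h8 := mul_lt_mul_of_pos_left h6 (show (0 : ℚ) < W by exact_mod_cast hWpos)
  linarith

end Pool.Agent.H113.MS
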