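import Pool.Agent.H113.MS.Order

/-!
# Compound matrices
-/

set_option autoImplicit false

namespace Pool.Agent.H113.MS

open Matrix Module

variable {n k : ℕ}

/-- the increasing enumeration of a `k`-subset -/
noncomputable abbrev emb (S : KS n k) : Fin k ↪o Fin n := Set.powersetCard.ofFinEmbEquiv.symm S

theorem mem_range_emb (S : KS n k) (i : Fin n) : (∃ a, emb S a = i) ↔ i ∈ S.val := by
  exact Set.powersetCard.mem_range_ofFinEmbEquiv_symm_iff_mem S i

theorem emb_mem (S : KS n k) (a : Fin k) : emb S a ∈ S.val := (mem_range_emb S _).mp ⟨a, rfl⟩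

theorem card_filter_emb (S : KS n k) (p : Fin n → Prop) [DecidablePred p] :
    (Finset.univ.filter fun a => p (emb S a)).card = (S.val.filter p).card := by
  have h : S.val.filter p = (Finset.univ.filter fun a => p (emb S a)).map (emb S).toEmbedding := by
    ext i
    simp only [Finset.mem_filter, Finset.mem_map, Finset.mem_univ, true_and,
      RelEmbedding.coe_toEmbedding]
    constructor
    · rintro ⟨h1, h2⟩
      obtain ⟨a, rfl⟩ := (mem_range_emb S i).mpr h1
      exact ⟨a, h2, rfl⟩
    · rintro ⟨a, h1, rfl⟩
      exact ⟨emb_mem S a, h1⟩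
  rw [h, Finset.card_map]

/-- the compound matrix: all `k × k` minors -/
noncomputable def C {R : Type*} [CommRing R] (A : Matrix (Fin n) (Fin n) R) :
    Matrix (KS n k) (KS n k) R :=
  fun S T => (A.submatrix (emb S) (emb T)).det

theorem C_map {R R' : Type*} [CommRing R] [CommRing R'] (φ : R →+* R')
    (A : Matrix (Fin n) (Fin n) R) (S T : KS n k) : C (A.map φ) S T = φ (C A S T) := by
  unfold C
  rw [RingHom.map_det]
  rfl

section Field

variable {K : Type*} [Field K]

theorem coord_eq (A : Matrix (Fin n) (Fin n) K) (S T : KS n k) :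
    ((Pi.basisFun K (Fin n)).exteriorPower k).repr
      (exteriorPower.ιMulti_family K k (fun i : Fin n => (A i : Fin n → K)) S) T = C A S T := by
  rw [exteriorPower.basis_repr_apply]
  unfold exteriorPower.ιMulti_family
  rw [exteriorPower.ιMultiDual_apply_ιMulti]
  rfl

/-- the linear map which takes `e_i` to the row `i` -/
noncomputable def rowMap (A : Matrix (Fin n) (Fin n) K) : (Fin n → K) →ₗ[K] (Fin n → K) :=
  (Pi.basisFun K (Fin n)).constr K (fun i => A i)

theorem rowMap_single (A : Matrix (Fin n) (Fin n) K) (i : Fin n) :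
    rowMap A (Pi.basisFun K (Fin n) i) = A i := by
  unfold rowMap
  rw [Basis.constr_basis]

theorem rowMap_mul (A B : Matrix (Fin n) (Fin n) K) :
    rowMap (A * B) = (rowMap B).comp (rowMap A) := by
  apply (Pi.basisFun K (Fin n)).ext
  intro i
  rw [rowMap_single, LinearMap.comp_apply, rowMap_single]
  have h : (A i : Fin n → K) = ∑ j, A i j • (Pi.basisFun K (Fin n) j) := by
    have := (Pi.basisFun K (Fin n)).sum_repr (A i)
    simpa using this.symm
  rw [h, map_sum]
  simp_rw [map_smul, rowMap_single]
  ext l
  simp [Matrix.mul_apply]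

theorem repr_map (A : Matrix (Fin n) (Fin n) K) (S T : KS n k) :
    ((Pi.basisFun K (Fin n)).exteriorPower k).repr
      (exteriorPower.map k (rowMap A) ((Pi.basisFun K (Fin n)).exteriorPower k S)) T =
      C A S T := by
  rw [exteriorPower.basis_apply, exteriorPower.map_apply_ιMulti_family, ← coord_eq]
  congr 2
  congr 1
  funext i
  exact rowMap_single A i

theorem C_mul (A B : Matrix (Fin n) (Fin n) K) :
    (C (A * B) : Matrix (KS n k) (KS n k) K) = C A * C B := by
  classical
  ext S T
  rw [← repr_map, rowMap_mul, Matrix.mul_apply]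
  set b := (Pi.basisFun K (Fin n)).exteriorPower k with hb
  have h1 : exteriorPower.map k ((rowMap B).comp (rowMap A)) (b S) =
      exteriorPower.map k (rowMap B) (exteriorPower.map k (rowMap A) (b S)) := by
    rw [exteriorPower.map_comp]
    rfl
  rw [h1, ← b.sum_repr (exteriorPower.map k (rowMap A) (b S)), map_sum, map_sum,
    Finsupp.finsetSum_apply]
  refine Finset.sum_congr rfl fun R _ => ?_
  rw [map_smul, map_smul, Finsupp.smul_apply, smul_eq_mul, hb, repr_map, repr_map]

theorem C_one : (C (1 : Matrix (Fin n) (Fin n) K) : Matrix (KS n k) (KS n k) K) = 1 := by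
  classical
  ext S T
  rw [← coord_eq]
  have h : (fun i : Fin n => ((1 : Matrix (Fin n) (Fin n) K) i : Fin n → K)) =
      (Pi.basisFun K (Fin n)) := by
    funext i
    ext j
    simp [Matrix.one_apply, Pi.single_apply, eq_comm]
  rw [h, ← exteriorPower.basis_apply, Basis.repr_self, Matrix.one_apply, Finsupp.single_apply]

/-- the minors of an upper triangular matrix -/
theorem C_upper {U : Matrix (Fin n) (Fin n) K} (hU : ∀ i j, j < i → U i j = 0) {S T : KS n k}
    (h : C U S T ≠ 0) : CLE S T := by
  classical
  by_contra hc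
  unfold CLE at hc
  push Not at hc
  obtain ⟨m, hm⟩ := hc
  apply h
  unfold C
  rw [Matrix.det_apply']
  refine Finset.sum_eq_zero fun σ _ => ?_
  rw [mul_eq_zero]
  right
  rw [← card_filter_emb, ← card_filter_emb] at hm
  have : ∃ a, emb T a ≤ m ∧ ¬ emb S (σ a) ≤ m := by
    by_contra hcon
    push Not at hcon
    have h1 : (Finset.univ.filter fun a => emb T a ≤ m).card ≤
        (Finset.univ.filter fun a => emb S a ≤ m).card := by
      refine Finset.card_le_card_of_injOn σ ?_ (σ.injective.injOn)
      intro a ha
      simp only [Finset.coe_filter, Finset.mem_univ, true_and, Set.mem_ofPred_eq] at ha ⊢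
      exact hcon a ha
    omega
  obtain ⟨a, h1, h2⟩ := this
  refine Finset.prod_eq_zero (Finset.mem_univ a) ?_
  rw [Matrix.submatrix_apply]
  exact hU _ _ (lt_of_le_of_lt h1 (not_le.mp h2))

theorem C_transpose (A : Matrix (Fin n) (Fin n) K) (S T : KS n k) :
    C Aᵀ S T = C A T S := by
  unfold C
  rw [← Matrix.det_transpose, Matrix.transpose_submatrix, Matrix.transpose_transpose]

theorem C_lower {Q : Matrix (Fin n) (Fin n) K} (hQ : ∀ i j, i < j → Q i j = 0) {S T : KS n k}
    (h : C Q S T ≠ 0) : CLE T S := by
  rw [← C_transpose] at h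
  exact C_upper (fun i j hij => hQ j i hij) h

theorem C_diag {U : Matrix (Fin n) (Fin n) K} (hU : ∀ i j, j < i → U i j = 0)
    (hd : ∀ i, U i i = 1) (S : KS n k) : C U S S = 1 := by
  unfold C
  rw [Matrix.det_of_isUpperTriangular]
  · simp [hd]
  · intro a b hab
    exact hU _ _ ((emb S).strictMono hab)

theorem emb_le_of_cle {S T : KS n k} (h : CLE S T) (a : Fin k) : emb S a ≤ emb T a := by
  classical
  by_contra hc
  push Not at hc
  have h1 := h (emb T a)
  rw [← card_filter_emb, ← card_filter_emb] at h1
  have h2 : (Finset.univ.filter fun b => emb S b ≤ emb T a) ⊆ Finset.univ.filter (· < a) := by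
    intro b hb
    simp only [Finset.mem_filter, Finset.mem_univ, true_and] at hb ⊢
    exact (emb S).lt_iff_lt.mp (lt_of_le_of_lt hb hc)
  have h3 : Finset.univ.filter (· ≤ a) ⊆ Finset.univ.filter fun b => emb T b ≤ emb T a := by
    intro b hb
    simp only [Finset.mem_filter, Finset.mem_univ, true_and] at hb ⊢
    exact (emb T).le_iff_le.mpr hb
  have h4 := Finset.card_le_card h2
  have h5 := Finset.card_le_card h3
  have h6 : (Finset.univ.filter (· < a)).card < (Finset.univ.filter (· ≤ a)).card := by
    apply Finset.card_lt_card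
    rw [Finset.ssubset_iff_of_subset (by
      intro b hb
      simp only [Finset.mem_filter, Finset.mem_univ, true_and] at hb ⊢
      exact hb.le)]
    exact ⟨a, by simp, by simp⟩
  omega

/-- a unitriangular matrix with a prescribed nonzero minor -/
theorem exists_unitri {S T : KS n k} (h : CLE S T) :
    ∃ P : Matrix (Fin n) (Fin n) K, (∀ i j, j < i → P i j = 0) ∧ (∀ i, P i i = 1) ∧
      C P S T = 1 := by
  classical
  refine ⟨Matrix.of fun i j => if i = j then 1 else
    if ∃ a, i = emb S a ∧ j = emb T a then 1 else 0, ?_, ?_, ?_⟩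
  · intro i j hij
    have h1 : i ≠ j := (ne_of_lt hij).symm
    have h2 : ¬ ∃ a, i = emb S a ∧ j = emb T a := by
      rintro ⟨a, rfl, rfl⟩
      exact absurd (emb_le_of_cle h a) (not_le.mpr hij)
    simp only [Matrix.of_apply, h1, h2, if_false]
  · intro i
    simp
  · unfold C
    rw [Matrix.det_of_isLowerTriangular]
    · refine Finset.prod_eq_one fun a _ => ?_
      rw [Matrix.submatrix_apply]
      rw [Matrix.of_apply]
      by_cases h1 : emb S a = emb T a
      · rw [if_pos h1]
      · rw [if_neg h1, if_pos ⟨a, rfl, rfl⟩]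
    · intro a b hab
      have hab' : a < b := hab
      rw [Matrix.submatrix_apply]
      have h1 : emb S a ≠ emb T b := by
        intro h1
        have := emb_le_of_cle h a
        rw [h1] at this
        exact absurd ((emb T).le_iff_le.mp this) (not_le.mpr hab')
      have h2 : ¬ ∃ c, emb S a = emb S c ∧ emb T b = emb T c := by
        rintro ⟨c, h3, h4⟩
        have h5 := (emb S).injective h3
        have h6 := (emb T).injective h4
        rw [h5, h6] at hab'
        exact lt_irrefl _ hab'
      rw [Matrix.of_apply, if_neg h1, if_neg h2]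

end Field

end Pool.Agent.H113.MS
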