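import Pool.Agent.H113.MS.Main

/-!
# Initial lex-segments are matroidal (the known direction)
-/

set_option autoImplicit false

namespace Pool.Agent.H113.MS

open Module

variable {n k : ℕ}

section Lin

set_option linter.unusedSectionVars false

variable {K V ι : Type*} [Field K] [AddCommGroup V] [Module K V] [Module.Finite K V] [Finite ι]

theorem finrank_of_indepOn {v : ι → V} {I : Set ι} (h : LinearIndepOn K v I) :
    finrank K (Submodule.span K (v '' I)) = I.ncard := by
  classical
  have : Fintype I := Fintype.ofFinite _
  have h1 := finrank_span_eq_card (R := K) (b := fun x : I => v x.1) h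
  have h2 : Set.range (fun x : I => v x.1) = v '' I := by
    ext w
    constructor
    · rintro ⟨x, rfl⟩; exact ⟨x.1, x.2, rfl⟩
    · rintro ⟨x, hx, rfl⟩; exact ⟨⟨x, hx⟩, rfl⟩
  rw [h2] at h1
  rw [h1, ← Nat.card_eq_fintype_card, Nat.card_coe_set_eq]

theorem indepOn_of_finrank {v : ι → V} {I : Set ι}
    (h : finrank K (Submodule.span K (v '' I)) = I.ncard) : LinearIndepOn K v I := by
  classical
  have : Fintype I := Fintype.ofFinite _
  have h2 : Set.range (fun x : I => v x.1) = v '' I := by
    ext w
    constructor
    · rintro ⟨x, rfl⟩; exact ⟨x.1, x.2, rfl⟩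
    · rintro ⟨x, hx, rfl⟩; exact ⟨⟨x, hx⟩, rfl⟩
  change LinearIndependent K (fun x : I => v x.1)
  rw [linearIndependent_iff_card_eq_finrank_span, Set.finrank, h2, h,
    ← Nat.card_eq_fintype_card, Nat.card_coe_set_eq]

/-- the matroid of a finite family of vectors -/
noncomputable def vecMatroid (v : ι → V) : Matroid ι :=
  (IndepMatroid.ofFinite (E := Set.univ) (Set.toFinite _) (fun I => LinearIndepOn K v I)
    (linearIndepOn_empty K v)
    (fun _ _ hJ hIJ => hJ.mono hIJ)
    (by
      intro I J hI hJ hlt
      by_contra hcon
      push Not at hcon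
      have h1 : Submodule.span K (v '' J) ≤ Submodule.span K (v '' I) := by
        rw [Submodule.span_le]
        rintro _ ⟨e, he, rfl⟩
        by_cases heI : e ∈ I
        · exact Submodule.subset_span ⟨e, heI, rfl⟩
        · by_contra h2
          exact hcon e he heI (hI.insert h2)
      have h2 := Submodule.finrank_mono h1
      rw [finrank_of_indepOn hI, finrank_of_indepOn hJ] at h2
      omega)
    (fun _ _ => Set.subset_univ _)).matroid

theorem vecMatroid_indep (v : ι → V) (I : Set ι) :
    (vecMatroid (K := K) v).Indep I ↔ LinearIndepOn K v I := by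
  unfold vecMatroid
  simp [IndepMatroid.matroid_Indep]

theorem vecMatroid_E (v : ι → V) : (vecMatroid (K := K) v).E = Set.univ := rfl

end Lin

variable (F : Type*) [Field F]

theorem rk_univ (G : Set (KS n k)) : rk (gen n F) Set.univ G = G.ncard := by
  classical
  apply le_antisymm
  · have : Fintype G := Fintype.ofFinite _
    rw [rk_eq_rank]
    refine (Matrix.rank_le_card_width _).trans ?_
    rw [← Nat.card_eq_fintype_card, Nat.card_coe_set_eq]
  · have := le_rk_gen (F := F) Set.univ G
    rwa [Set.inter_univ] at this

theorem shift_ncard_self (G : Set (KS n k)) : (shift F G).ncard = G.ncard := by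
  have h := shift_ncard F G (L := Set.univ) (fun _ _ _ _ => Set.mem_univ _)
  rwa [Set.inter_univ, rk_univ] at h

/-- initial lex-segments are matroidal -/
theorem matroidal_of_initialLex {H : Set (KS n k)} (hH : InitialLex H) : Matroidal F H := by
  classical
  have hrH : rk (gen n F) H H = H.ncard := by
    apply le_antisymm
    · have : Fintype H := Fintype.ofFinite _
      rw [rk_eq_rank]
      refine (Matrix.rank_le_card_width _).trans ?_
      rw [← Nat.card_eq_fintype_card, Nat.card_coe_set_eq]
    · have := le_rk_gen (F := F) H H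
      rwa [Set.inter_self] at this
  set M := vecMatroid (K := KK n F) (colv (k := k) (gen n F) H) with hM
  have hind : ∀ I : Set (KS n k), M.Indep I ↔ rk (gen n F) H I = I.ncard := by
    intro I
    rw [hM, vecMatroid_indep]
    exact ⟨fun h => finrank_of_indepOn h, fun h => indepOn_of_finrank h⟩
  have hle : ∀ I : Set (KS n k), rk (gen n F) H I ≤ H.ncard := by
    intro I
    have h1 : rk (gen n F) H I = (shift F I ∩ H).ncard := (shift_ncard F I hH).symm
    rw [h1]
    exact Set.ncard_le_ncard Set.inter_subset_right (Set.toFinite _)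
  have hHbase : M.IsBase H := by
    rw [Matroid.isBase_iff_maximal_indep]
    refine ⟨(hind H).mpr hrH, fun J hJ hHJ => ?_⟩
    have h1 := (hind J).mp hJ
    have h2 := hle J
    rw [h1] at h2
    exact (Set.eq_of_subset_of_ncard_le hHJ h2 (Set.toFinite _)).ge
  refine ⟨M, vecMatroid_E _, fun G => ?_⟩
  constructor
  · intro hG
    have hc : G.ncard = H.ncard := hG.ncard_eq_ncard_of_isBase hHbase
    have h1 := (hind G).mp hG.indep
    have h2 := shift_ncard F G hH
    rw [h1, hc] at h2
    have h3 := shift_ncard_self F G
    have h4 : shift F G ∩ H = H := Set.eq_of_subset_of_ncard_le Set.inter_subset_right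
      h2.ge (Set.toFinite _)
    symm
    apply Set.eq_of_subset_of_ncard_le (Set.inter_eq_right.mp h4) _ (Set.toFinite _)
    rw [h3, hc]
  · intro hG
    have h3 := shift_ncard_self F G
    rw [hG] at h3
    have h1 := shift_ncard F G hH
    rw [hG, Set.inter_self, h3] at h1
    have hGi : M.Indep G := (hind G).mpr h1.symm
    obtain ⟨B, hB, hGB⟩ := hGi.exists_isBase_superset
    have hc : B.ncard = H.ncard := hB.ncard_eq_ncard_of_isBase hHbase
    have : G = B := Set.eq_of_subset_of_ncard_le hGB (by omega) (Set.toFinite _)
    rw [this]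
    exact hB

end Pool.Agent.H113.MS
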