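import Mathlib

/-!
# Exterior algebraic shifting of `k`-uniform hypergraphs (definitions for MP_47a6f3_co)
-/

set_option autoImplicit false

namespace Pool.Agent.H113.MS

open Module

/-- the `k`-subsets of `[n]` -/
abbrev KS (n k : ℕ) : Type := Set.powersetCard (Fin n) k

variable {n k : ℕ}

/-- the lexicographic order: `S` is before `T` if the least element of the symmetric difference
of `S` and `T` belongs to `S` -/
def LexLT (S T : KS n k) : Prop :=
  ∃ m : Fin n, m ∈ S.val ∧ m ∉ T.val ∧ ∀ i < m, (i ∈ S.val ↔ i ∈ T.val)

/-- `H` is shifted: replacing an element `j` of a member by a smaller element `i` which is not in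
it gives a member -/
def Shifted (H : Set (KS n k)) : Prop :=
  ∀ S ∈ H, ∀ T : KS n k, ∀ i j : Fin n, j ∈ S.val → i < j → i ∉ S.val →
    T.val = insert i (S.val.erase j) → T ∈ H

/-- `H` is an initial segment of the lexicographic order -/
def InitialLex (H : Set (KS n k)) : Prop :=
  ∀ T ∈ H, ∀ S, LexLT S T → S ∈ H

section Shifting

section Field

variable (K : Type*) {V : Type*} [Field K] [AddCommGroup V] [Module K V]

/-- `v_S`, the exterior product of the `v s` with `s` in `S`, in increasing order -/
noncomputable def wedge (v : Fin n → V) (S : KS n k) : ExteriorAlgebra K V :=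
  ExteriorAlgebra.ιMulti_family K k v S

/-- `W_G + span {f_R : R <_lex S}`, the span of the `e_T` with `T` not in `G` and of the `f_R` with
`R` lexicographically before `S` -/
noncomputable def spanBefore (e f : Fin n → V) (G : Set (KS n k)) (S : KS n k) :
    Submodule K (ExteriorAlgebra K V) :=
  Submodule.span K {x | (∃ T, T ∉ G ∧ x = wedge K e T) ∨ ∃ R, LexLT R S ∧ x = wedge K f R}

/-- the family of the `S` such that `f_S` is not in `W_G + span {f_R : R <_lex S}` -/
def shiftOf (e f : Fin n → V) (G : Set (KS n k)) : Set (KS n k) :=
  {S | wedge K f S ∉ spanBefore K e f G S}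

variable {K}

/-- `shiftOf` for the standard basis `e_j` of `V = K ^ n` and the vectors
`f_i = ∑ j, A i j • e_j`, the rows of `A` -/
def shiftWith (A : Matrix (Fin n) (Fin n) K) (G : Set (KS n k)) : Set (KS n k) :=
  shiftOf K (V := Fin n → K) (fun j => Pi.single j 1) (fun i => A i) G

end Field

variable (F : Type*) [Field F] (n)

/-- the field `F(a_{ij} : 1 ≤ i, j ≤ n)` of rational functions -/
abbrev KK : Type _ := FractionRing (MvPolynomial (Fin n × Fin n) F)

/-- the generic matrix `(a_{ij})` -/
noncomputable def gen : Matrix (Fin n) (Fin n) (KK n F) :=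
  fun i j => algebraMap (MvPolynomial (Fin n × Fin n) F) (KK n F) (MvPolynomial.X (i, j))

variable {n}

/-- the exterior algebraic shifting `Δᵉ(G)` of `G`, for the generic matrix -/
def shift (G : Set (KS n k)) : Set (KS n k) := shiftWith (gen n F) G

/-- `H` is matroidal: the families `G` with `Δᵉ(G) = H` are the bases of a matroid whose ground
set is the set of all `k`-subsets of `[n]` -/
def Matroidal (H : Set (KS n k)) : Prop :=
  ∃ M : Matroid (KS n k), M.E = Set.univ ∧ ∀ G : Set (KS n k), M.IsBase G ↔ shift F G = H

end Shifting

end Pool.Agent.H113.MS
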