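import Mathlib

/-!
# A strict Harris inequality for families of `s`-subsets closed under shifts
-/

set_option autoImplicit false

namespace Pool.Agent.H113.MS

open Finset

variable {α : Type*} [LinearOrder α]

/-- `H` is closed under shifts inside the block `B` -/
def BClosed (B : Finset α) (H : Finset α → Prop) : Prop :=
  ∀ S, H S → ∀ i j, i ∈ B → j ∈ B → j ∈ S → i < j → i ∉ S → H (insert i (S.erase j))

open Classical in
/-- the number of `s`-subsets `z` of `B` for which `P ∪ z` belongs to `H` -/
noncomputable def cnt (H : Finset α → Prop) (P B : Finset α) (s : ℕ) : ℕ :=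
  ((B.powersetCard s).filter fun z => H (P ∪ z)).card

theorem cnt_def (H : Finset α → Prop) (P B : Finset α) (s : ℕ)
    [DecidablePred fun z : Finset α => H (P ∪ z)] :
    cnt H P B s = ((B.powersetCard s).filter fun z => H (P ∪ z)).card := by
  unfold cnt
  congr!

theorem cnt_insert (H : Finset α → Prop) (P B : Finset α) (m : α) (hm : m ∉ B) (s : ℕ) :
    cnt H P (insert m B) (s + 1) = cnt H P B (s + 1) + cnt H (insert m P) B s := by
  classical
  unfold cnt
  rw [Finset.powersetCard_succ_insert hm, Finset.filter_union, Finset.card_union_of_disjoint]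
  · refine congrArg₂ (· + ·) rfl ?_
    rw [Finset.filter_image, Finset.card_image_of_injOn]
    · refine congrArg Finset.card ?_
      ext z
      simp only [Finset.mem_filter, Finset.union_insert, Finset.insert_union]
    · intro z hz z' hz' h
      simp only [Finset.coe_filter, Set.mem_ofPred_eq, Finset.mem_powersetCard] at hz hz'
      have h1 : m ∉ z := fun h => hm (hz.1.1 h)
      have h2 : m ∉ z' := fun h => hm (hz'.1.1 h)
      have h3 : (insert m z).erase m = (insert m z').erase m := by rw [h]
      rwa [Finset.erase_insert h1, Finset.erase_insert h2] at h3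
  · rw [Finset.disjoint_left]
    intro z hz hz'
    simp only [Finset.mem_filter, Finset.mem_powersetCard, Finset.mem_image] at hz hz'
    obtain ⟨⟨w, -, rfl⟩, -⟩ := hz'
    exact hm (hz.1.1 (Finset.mem_insert_self _ _))

/-- the double counting -/
theorem mono_count (H : Finset α → Prop) (P B : Finset α) (m : α) (hm : ∀ i ∈ B, i < m)
    (hP : Disjoint P (insert m B)) (hH : BClosed (insert m B) H) (s : ℕ) :
    (B.card - s) * cnt H (insert m P) B s ≤ (s + 1) * cnt H P B (s + 1) ∧
    ((∃ w ∈ B.powersetCard (s + 1), H (P ∪ w) ∧ ∃ i ∈ w, ¬ H (P ∪ insert m (w.erase i))) →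
      (B.card - s) * cnt H (insert m P) B s < (s + 1) * cnt H P B (s + 1)) := by
  classical
  have hmB : m ∉ B := fun h => lt_irrefl _ (hm m h)
  set X := (B.powersetCard s).filter fun z => H (insert m P ∪ z) with hX
  set Y := (B.powersetCard (s + 1)).filter fun z => H (P ∪ z) with hY
  have hcX : cnt H (insert m P) B s = X.card := by
    unfold cnt
    rw [hX]
  have hcY : cnt H P B (s + 1) = Y.card := by
    unfold cnt
    rw [hY]
  rw [hcX, hcY]
  have habove : ∀ z ∈ X, B.card - s ≤ (Y.bipartiteAbove (fun z w : Finset α => z ⊆ w) z).card := by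
    intro z hz
    rw [hX, Finset.mem_filter, Finset.mem_powersetCard] at hz
    have h1 : (B \ z).image (fun i => insert i z) ⊆
        Y.bipartiteAbove (fun z w : Finset α => z ⊆ w) z := by
      intro w hw
      rw [Finset.mem_image] at hw
      obtain ⟨i, hi, rfl⟩ := hw
      rw [Finset.mem_sdiff] at hi
      rw [Finset.mem_bipartiteAbove, hY, Finset.mem_filter, Finset.mem_powersetCard]
      refine ⟨⟨⟨?_, ?_⟩, ?_⟩, Finset.subset_insert _ _⟩
      · exact Finset.insert_subset hi.1 hz.1.1
      · rw [Finset.card_insert_of_notMem hi.2, hz.1.2]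
      · have h2 := hH _ hz.2 i m (Finset.mem_insert_of_mem hi.1) (Finset.mem_insert_self _ _)
          (by simp) (hm i hi.1) (by
            rw [Finset.mem_union, Finset.mem_insert]
            rintro ((h | h) | h)
            · exact hmB (h ▸ hi.1)
            · exact Finset.disjoint_left.mp hP h (Finset.mem_insert_of_mem hi.1)
            · exact hi.2 h)
        have h3 : insert i ((insert m P ∪ z).erase m) = P ∪ insert i z := by
          rw [Finset.insert_union, Finset.erase_insert (by
            rw [Finset.mem_union]
            rintro (h | h)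
            · exact Finset.disjoint_left.mp hP h (Finset.mem_insert_self _ _)
            · exact hmB (hz.1.1 h)), Finset.union_insert]
        rwa [h3] at h2
    refine le_trans ?_ (Finset.card_le_card h1)
    rw [Finset.card_image_of_injOn, Finset.card_sdiff_of_subset hz.1.1, hz.1.2]
    intro i hi i' hi' h
    simp only [Finset.coe_sdiff, Set.mem_sdiff, Finset.mem_coe] at hi hi'
    have h2 : i ∈ insert i' z := by
      have : i ∈ insert i z := Finset.mem_insert_self _ _
      rwa [show insert i z = insert i' z from h] at this
    rw [Finset.mem_insert] at h2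
    exact h2.resolve_right hi.2
  have hbelow_sub : ∀ w ∈ Y, X.bipartiteBelow (fun z w : Finset α => z ⊆ w) w ⊆
      w.image (fun i => w.erase i) := by
    intro w hw z hz
    rw [Finset.mem_bipartiteBelow, hX, Finset.mem_filter, Finset.mem_powersetCard] at hz
    rw [hY, Finset.mem_filter, Finset.mem_powersetCard] at hw
    have h1 : (w \ z).card = 1 := by
      rw [Finset.card_sdiff_of_subset hz.2, hw.1.2, hz.1.1.2]
      omega
    obtain ⟨i, hi⟩ := Finset.card_eq_one.mp h1
    have hiw : i ∈ w \ z := by rw [hi]; simp
    rw [Finset.mem_sdiff] at hiw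
    rw [Finset.mem_image]
    refine ⟨i, hiw.1, ?_⟩
    rw [← Finset.sdiff_singleton_eq_erase, ← hi, Finset.sdiff_sdiff_eq_self hz.2]
  have himg : ∀ w : Finset α, (w.image (fun i => w.erase i)).card ≤ w.card :=
    fun w => Finset.card_image_le
  have hsum : ∑ z ∈ X, (Y.bipartiteAbove (fun z w : Finset α => z ⊆ w) z).card =
      ∑ w ∈ Y, (X.bipartiteBelow (fun z w : Finset α => z ⊆ w) w).card :=
    Finset.sum_card_bipartiteAbove_eq_sum_card_bipartiteBelow _
  have hle1 : (B.card - s) * X.card ≤
      ∑ z ∈ X, (Y.bipartiteAbove (fun z w : Finset α => z ⊆ w) z).card := by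
    rw [mul_comm, ← smul_eq_mul, ← Finset.sum_const]
    exact Finset.sum_le_sum habove
  have hle2 : ∀ w ∈ Y, (X.bipartiteBelow (fun z w : Finset α => z ⊆ w) w).card ≤ s + 1 := by
    intro w hw
    refine (Finset.card_le_card (hbelow_sub w hw)).trans ((himg w).trans ?_)
    rw [hY, Finset.mem_filter, Finset.mem_powersetCard] at hw
    rw [hw.1.2]
  constructor
  · rw [hsum] at hle1
    refine hle1.trans ?_
    rw [mul_comm, ← smul_eq_mul, ← Finset.sum_const]
    exact Finset.sum_le_sum hle2
  · rintro ⟨w, hw, hHw, i, hi, hni⟩
    rw [hsum] at hle1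
    refine lt_of_le_of_lt hle1 ?_
    rw [mul_comm (s + 1), ← smul_eq_mul, ← Finset.sum_const]
    have hwY : w ∈ Y := by rw [hY, Finset.mem_filter]; exact ⟨hw, hHw⟩
    refine Finset.sum_lt_sum hle2 ⟨w, hwY, ?_⟩
    have hwc : w.card = s + 1 := (Finset.mem_powersetCard.mp hw).2
    have hwB : w ⊆ B := (Finset.mem_powersetCard.mp hw).1
    have h1 : X.bipartiteBelow (fun z w : Finset α => z ⊆ w) w ⊆
        (w.erase i).image (fun i => w.erase i) := by
      intro z hz
      have h2 := hbelow_sub w hwY hz
      rw [Finset.mem_image] at h2 ⊢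
      obtain ⟨i', hi', rfl⟩ := h2
      refine ⟨i', ?_, rfl⟩
      rw [Finset.mem_erase]
      refine ⟨?_, hi'⟩
      rintro rfl
      rw [Finset.mem_bipartiteBelow, hX, Finset.mem_filter] at hz
      apply hni
      have := hz.1.2
      rwa [Finset.insert_union, ← Finset.union_insert] at this
    refine lt_of_le_of_lt ((Finset.card_le_card h1).trans Finset.card_image_le) ?_
    rw [Finset.card_erase_of_mem hi, hwc]
    omega

/-- a nontrivial family which is closed under shifts loses something when elements are replaced
by the largest one -/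
theorem exists_strict (H : Finset α → Prop) (P B : Finset α) (m : α) (hm : ∀ i ∈ B, i < m)
    (hP : Disjoint P (insert m B)) (hH : BClosed (insert m B) H) (s : ℕ)
    (hne : ∃ x ∈ (insert m B).powersetCard (s + 1), H (P ∪ x))
    (hne' : ∃ z ∈ (insert m B).powersetCard (s + 1), ¬ H (P ∪ z)) :
    ∃ w ∈ B.powersetCard (s + 1), H (P ∪ w) ∧ ∃ i ∈ w, ¬ H (P ∪ insert m (w.erase i)) := by
  classical
  by_contra hcon
  push Not at hcon
  have hmB : m ∉ B := fun h => lt_irrefl _ (hm m h)
  obtain ⟨z, hz, hHz⟩ := hne'
  have key : ∀ (N : ℕ) (x : Finset α), x ∈ (insert m B).powersetCard (s + 1) → H (P ∪ x) →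
      (z \ x).card ≤ N → False := by
    intro N
    induction N with
    | zero =>
      intro x hx hHx hN
      have h1 : z ⊆ x := by
        rw [← Finset.sdiff_eq_empty_iff_subset]
        exact Finset.card_eq_zero.mp (Nat.le_zero.mp hN)
      have h2 : z = x := by
        apply Finset.eq_of_subset_of_card_le h1
        rw [(Finset.mem_powersetCard.mp hx).2, (Finset.mem_powersetCard.mp hz).2]
      exact hHz (h2 ▸ hHx)
    | succ N ih =>
      intro x hx hHx hN
      rw [Finset.mem_powersetCard] at hx hz
      by_cases h0 : z \ x = ∅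
      · have h1 : z ⊆ x := Finset.sdiff_eq_empty_iff_subset.mp h0
        have h2 : z = x := by
          apply Finset.eq_of_subset_of_card_le h1
          rw [hx.2, hz.2]
        exact hHz (h2 ▸ hHx)
      obtain ⟨j, hj⟩ := Finset.nonempty_iff_ne_empty.mpr h0
      have hj' := Finset.mem_sdiff.mp hj
      have hcards : (x \ z).card = (z \ x).card := by
        have h1 := Finset.card_sdiff_add_card_inter x z
        have h2 := Finset.card_sdiff_add_card_inter z x
        rw [Finset.inter_comm] at h2
        omega
      have hxz : (x \ z).Nonempty := by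
        rw [← Finset.card_pos, hcards]
        exact Finset.card_pos.mpr ⟨j, hj⟩
      have hPdis : ∀ a ∈ P, a ∉ insert m B := fun a ha => Finset.disjoint_left.mp hP ha
      have hjP : j ∉ P := fun h => hPdis j h (hz.1 hj'.1)
      -- the step to a set `x'` closer to `z`
      suffices hstep : ∃ i ∈ x \ z, H (P ∪ insert j (x.erase i)) by
        obtain ⟨i, hi, hHi⟩ := hstep
        rw [Finset.mem_sdiff] at hi
        refine ih (insert j (x.erase i)) ?_ hHi ?_
        · rw [Finset.mem_powersetCard]
          refine ⟨Finset.insert_subset (hz.1 hj'.1)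
            ((Finset.erase_subset _ _).trans hx.1), ?_⟩
          rw [Finset.card_insert_of_notMem (by
            intro h
            exact hj'.2 (Finset.mem_of_mem_erase h)), Finset.card_erase_of_mem hi.1, hx.2]
          omega
        · have h1 : z \ insert j (x.erase i) ⊆ (z \ x).erase j := by
            intro a ha
            rw [Finset.mem_sdiff, Finset.mem_insert, Finset.mem_erase] at ha
            rw [Finset.mem_erase, Finset.mem_sdiff]
            refine ⟨fun h => ha.2 (Or.inl h), ha.1, fun h => ha.2 (Or.inr ⟨?_, h⟩)⟩
            rintro rfl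
            exact hi.2 ha.1
          have h2 := Finset.card_le_card h1
          rw [Finset.card_erase_of_mem hj] at h2
          omega
      by_cases hmx : m ∈ x
      · by_cases hmz : m ∈ z
        · -- replace `m` by `j`, then some `i` by `m`
          obtain ⟨i, hi⟩ := hxz
          rw [Finset.mem_sdiff] at hi
          have him : i ≠ m := by rintro rfl; exact hi.2 hmz
          have hjm : j ≠ m := by rintro rfl; exact hj'.2 hmx
          have hjB : j ∈ B := (Finset.mem_insert.mp (hz.1 hj'.1)).resolve_left hjm
          have hiB : i ∈ B := (Finset.mem_insert.mp (hx.1 hi.1)).resolve_left him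
          have h1 : H (insert j ((P ∪ x).erase m)) :=
            hH _ hHx j m (Finset.mem_insert_of_mem hjB) (Finset.mem_insert_self _ _)
              (Finset.mem_union_right _ hmx) (hm j hjB) (by
                rw [Finset.mem_union]; rintro (h | h)
                · exact hjP h
                · exact hj'.2 h)
          have hmP : m ∉ P := fun h => hPdis m h (Finset.mem_insert_self _ _)
          have h2 : insert j ((P ∪ x).erase m) = P ∪ insert j (x.erase m) := by
            rw [Finset.union_insert, Finset.erase_union_distrib, Finset.erase_eq_of_notMem hmP]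
          rw [h2] at h1
          have h3 := hcon (insert j (x.erase m)) (by
            rw [Finset.mem_powersetCard]
            refine ⟨Finset.insert_subset hjB ?_, ?_⟩
            · intro a ha
              rw [Finset.mem_erase] at ha
              exact (Finset.mem_insert.mp (hx.1 ha.2)).resolve_left ha.1
            · rw [Finset.card_insert_of_notMem (by
                intro h
                exact hj'.2 (Finset.mem_of_mem_erase h)), Finset.card_erase_of_mem hmx, hx.2]
              omega) h1 i (by
                rw [Finset.mem_insert, Finset.mem_erase]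
                exact Or.inr ⟨him, hi.1⟩)
          refine ⟨i, Finset.mem_sdiff.mpr hi, ?_⟩
          have hji : j ≠ i := by rintro rfl; exact hj'.2 hi.1
          have h4 : insert m ((insert j (x.erase m)).erase i) = insert j (x.erase i) := by
            ext a
            simp only [Finset.mem_insert, Finset.mem_erase]
            constructor
            · rintro (rfl | ⟨h5, rfl | h6⟩)
              · exact Or.inr ⟨him.symm, hmx⟩
              · exact Or.inl rfl
              · exact Or.inr ⟨h5, h6.2⟩
            · rintro (rfl | ⟨h5, h6⟩)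
              · exact Or.inr ⟨hji, Or.inl rfl⟩
              · by_cases ham : a = m
                · exact Or.inl ham
                · exact Or.inr ⟨h5, Or.inr ⟨ham, h6⟩⟩
          rwa [h4] at h3
        · -- replace `m` by `j`
          have hjm : j ≠ m := by rintro rfl; exact hj'.2 hmx
          have hjB : j ∈ B := (Finset.mem_insert.mp (hz.1 hj'.1)).resolve_left hjm
          refine ⟨m, Finset.mem_sdiff.mpr ⟨hmx, hmz⟩, ?_⟩
          have h1 : H (insert j ((P ∪ x).erase m)) :=
            hH _ hHx j m (Finset.mem_insert_of_mem hjB) (Finset.mem_insert_self _ _)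
              (Finset.mem_union_right _ hmx) (hm j hjB) (by
                rw [Finset.mem_union]; rintro (h | h)
                · exact hjP h
                · exact hj'.2 h)
          have hmP : m ∉ P := fun h => hPdis m h (Finset.mem_insert_self _ _)
          have h2 : insert j ((P ∪ x).erase m) = P ∪ insert j (x.erase m) := by
            rw [Finset.union_insert, Finset.erase_union_distrib, Finset.erase_eq_of_notMem hmP]
          rwa [h2] at h1
      · obtain ⟨i, hi⟩ := hxz
        refine ⟨i, hi, ?_⟩
        rw [Finset.mem_sdiff] at hi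
        have hxB : x ⊆ B := by
          intro a ha
          refine (Finset.mem_insert.mp (hx.1 ha)).resolve_left ?_
          rintro rfl
          exact hmx ha
        have h1 := hcon x (Finset.mem_powersetCard.mpr ⟨hxB, hx.2⟩) hHx i hi.1
        by_cases hjm : j = m
        · rw [hjm]; exact h1
        · have hjB : j ∈ B := (Finset.mem_insert.mp (hz.1 hj'.1)).resolve_left hjm
          have hmP : m ∉ P := fun h => hPdis m h (Finset.mem_insert_self _ _)
          have h2 : H (insert j ((P ∪ insert m (x.erase i)).erase m)) :=
            hH _ h1 j m (Finset.mem_insert_of_mem hjB) (Finset.mem_insert_self _ _)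
              (by simp) (hm j hjB) (by
                simp only [Finset.mem_union, Finset.mem_insert, Finset.mem_erase]
                rintro (h | h | h)
                · exact hjP h
                · exact hjm h
                · exact hj'.2 h.2)
          have h3 : insert j ((P ∪ insert m (x.erase i)).erase m) = P ∪ insert j (x.erase i) := by
            ext a
            simp only [Finset.mem_union, Finset.mem_insert, Finset.mem_erase]
            constructor
            · rintro (rfl | ⟨h4, h5 | h5 | h5⟩)
              · tauto
              · tauto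
              · exact absurd h5 h4
              · tauto
            · rintro (h5 | rfl | h5)
              · by_cases ham : a = m
                · exact absurd (ham ▸ h5) hmP
                · tauto
              · tauto
              · by_cases ham : a = m
                · exact absurd (ham ▸ h5.2) hmx
                · tauto
          rwa [h3] at h2
  obtain ⟨x, hx, hHx⟩ := hne
  exact key _ x hx hHx le_rfl

theorem BClosed.mono {B B' : Finset α} {H : Finset α → Prop} (h : BClosed B H) (hB : B' ⊆ B) :
    BClosed B' H :=
  fun S hS i j hi hj => h S hS i j (hB hi) (hB hj)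

theorem cnt_zero (H : Finset α → Prop) (P B : Finset α) [Decidable (H P)] :
    cnt H P B 0 = if H P then 1 else 0 := by
  classical
  unfold cnt
  by_cases h : H P
  · have h1 : (Finset.powersetCard 0 B).filter (fun z => H (P ∪ z)) = {∅} := by
      ext z
      simp only [Finset.powersetCard_zero, Finset.mem_filter, Finset.mem_singleton]
      constructor
      · exact fun h => h.1
      · rintro rfl
        exact ⟨rfl, by rwa [Finset.union_empty]⟩
    rw [h1]
    simp [h]
  · have h1 : (Finset.powersetCard 0 B).filter (fun z => H (P ∪ z)) = ∅ := by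
      ext z
      simp only [Finset.powersetCard_zero, Finset.mem_filter, Finset.mem_singleton,
        Finset.notMem_empty, iff_false]
      rintro ⟨rfl, h2⟩
      rw [Finset.union_empty] at h2
      exact h h2
    rw [h1]
    simp [h]

/-- the arithmetic of the two inequalities -/
theorem arith_step {N0 N1 h0 h1 q0 q1 g0 g1 : ℕ} (a : h0 * q0 ≤ N0 * g0) (b : h1 * q1 ≤ N1 * g1)
    (c : h1 * N0 ≤ h0 * N1) (d : q1 * N0 ≤ q0 * N1) (hN0 : 0 < N0) (hN1 : 0 < N1) :
    (h0 + h1) * (q0 + q1) ≤ (N0 + N1) * (g0 + g1) ∧
    (h1 * N0 < h0 * N1 → q1 * N0 < q0 * N1 →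
      (h0 + h1) * (q0 + q1) < (N0 + N1) * (g0 + g1)) := by
  have key : (N0 * N1 : ℤ) * ((N0 + N1) * (g0 + g1) - (h0 + h1) * (q0 + q1)) ≥
      (h0 * N1 - h1 * N0) * (q0 * N1 - q1 * N0) := by
    have a' : (h0 * q0 : ℤ) ≤ N0 * g0 := by exact_mod_cast a
    have b' : (h1 * q1 : ℤ) ≤ N1 * g1 := by exact_mod_cast b
    have e1 : (0 : ℤ) ≤ N1 * (N0 + N1) := by positivity
    have e2 : (0 : ℤ) ≤ N0 * (N0 + N1) := by positivity
    nlinarith [mul_le_mul_of_nonneg_left a' e1, mul_le_mul_of_nonneg_left b' e2]
  have hpos : (0 : ℤ) < N0 * N1 := by positivity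
  have c' : (0 : ℤ) ≤ h0 * N1 - h1 * N0 := by
    have : (h1 * N0 : ℤ) ≤ h0 * N1 := by exact_mod_cast c
    linarith
  have d' : (0 : ℤ) ≤ q0 * N1 - q1 * N0 := by
    have : (q1 * N0 : ℤ) ≤ q0 * N1 := by exact_mod_cast d
    linarith
  constructor
  · have h2 : (0 : ℤ) ≤ (N0 + N1) * (g0 + g1) - (h0 + h1) * (q0 + q1) := by
      by_contra h3
      push Not at h3
      have := mul_neg_of_pos_of_neg hpos h3
      nlinarith [mul_nonneg c' d']
    have h3 : ((h0 + h1) * (q0 + q1) : ℤ) ≤ (N0 + N1) * (g0 + g1) := by linarith
    exact_mod_cast h3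
  · intro c2 d2
    have c2' : (0 : ℤ) < h0 * N1 - h1 * N0 := by
      have : (h1 * N0 : ℤ) < h0 * N1 := by exact_mod_cast c2
      linarith
    have d2' : (0 : ℤ) < q0 * N1 - q1 * N0 := by
      have : (q1 * N0 : ℤ) < q0 * N1 := by exact_mod_cast d2
      linarith
    have h2 : (0 : ℤ) < (N0 + N1) * (g0 + g1) - (h0 + h1) * (q0 + q1) := by
      by_contra h3
      push Not at h3
      have := mul_nonpos_of_nonneg_of_nonpos hpos.le h3
      nlinarith [mul_pos c2' d2']
    have h3 : ((h0 + h1) * (q0 + q1) : ℤ) < (N0 + N1) * (g0 + g1) := by linarith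
    exact_mod_cast h3

theorem cnt_le_choose (H : Finset α → Prop) (P B : Finset α) (s : ℕ) :
    cnt H P B s ≤ B.card.choose s := by
  classical
  unfold cnt
  rw [← Finset.card_powersetCard]
  exact Finset.card_filter_le _ _

/-- from the double counting to proportions -/
theorem mono_prop {b s x y : ℕ} (h : (b - s) * x ≤ (s + 1) * y) :
    x * b.choose (s + 1) ≤ y * b.choose s := by
  have h1 : b.choose (s + 1) * (s + 1) = b.choose s * (b - s) := Nat.choose_succ_right_eq b s
  have h2 : (x * b.choose (s + 1)) * (s + 1) ≤ (y * b.choose s) * (s + 1) := by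
    calc (x * b.choose (s + 1)) * (s + 1) = x * (b.choose (s + 1) * (s + 1)) := by ring
      _ = ((b - s) * x) * b.choose s := by rw [h1]; ring
      _ ≤ ((s + 1) * y) * b.choose s := Nat.mul_le_mul_right _ h
      _ = _ := by ring
  exact Nat.le_of_mul_le_mul_right h2 (Nat.succ_pos s)

theorem mono_prop_strict {b s x y : ℕ} (hs : s ≤ b) (h : (b - s) * x < (s + 1) * y) :
    x * b.choose (s + 1) < y * b.choose s := by
  have h1 : b.choose (s + 1) * (s + 1) = b.choose s * (b - s) := Nat.choose_succ_right_eq b s
  have h0 : 0 < b.choose s := Nat.choose_pos hs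
  have h2 : (x * b.choose (s + 1)) * (s + 1) < (y * b.choose s) * (s + 1) := by
    calc (x * b.choose (s + 1)) * (s + 1) = x * (b.choose (s + 1) * (s + 1)) := by ring
      _ = ((b - s) * x) * b.choose s := by rw [h1]; ring
      _ < ((s + 1) * y) * b.choose s := Nat.mul_lt_mul_of_pos_right h h0
      _ = _ := by ring
  exact Nat.lt_of_mul_lt_mul_right h2

/-- **Harris' inequality** for `s`-subsets of a block. -/
theorem harris (H Q : Finset α → Prop) : ∀ (B P : Finset α) (s : ℕ), Disjoint P B →
    BClosed B H → BClosed B Q →
    cnt H P B s * cnt Q P B s ≤ B.card.choose s * cnt (fun S => H S ∧ Q S) P B s := by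
  classical
  intro B
  induction B using Finset.induction_on_max with
  | empty =>
    intro P s _ _ _
    rcases s with _ | s
    · rw [cnt_zero, cnt_zero, cnt_zero]
      by_cases h1 : H P <;> by_cases h2 : Q P <;> simp [h1, h2]
    · have h1 : cnt H P ∅ (s + 1) = 0 := by
        have := cnt_le_choose H P ∅ (s + 1)
        simpa using this
      rw [h1]
      simp
  | insert m B hm ih =>
    intro P s hP hH hQ
    have hmB : m ∉ B := fun h => lt_irrefl _ (hm m h)
    rcases s with _ | s
    · rw [cnt_zero, cnt_zero, cnt_zero]
      by_cases h1 : H P <;> by_cases h2 : Q P <;> simp [h1, h2]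
    · rw [cnt_insert _ _ _ _ hmB, cnt_insert _ _ _ _ hmB, cnt_insert _ _ _ _ hmB,
        Finset.card_insert_of_notMem hmB]
      have hHB := hH.mono (Finset.subset_insert m B)
      have hQB := hQ.mono (Finset.subset_insert m B)
      have hP1 : Disjoint P B := hP.mono_right (Finset.subset_insert _ _)
      have hP2 : Disjoint (insert m P) B := by
        rw [Finset.disjoint_insert_left]
        exact ⟨hmB, hP1⟩
      have i0 := ih P (s + 1) hP1 hHB hQB
      have i1 := ih (insert m P) s hP2 hHB hQB
      have c := mono_prop (mono_count H P B m hm hP hH s).1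
      have d := mono_prop (mono_count Q P B m hm hP hQ s).1
      rw [Nat.choose_succ_succ, add_comm (B.card.choose s)]
      rcases Nat.eq_zero_or_pos (B.card.choose (s + 1)) with hN0 | hN0
      · have e1 : cnt H P B (s + 1) = 0 := by
          have := cnt_le_choose H P B (s + 1); omega
        have e2 : cnt Q P B (s + 1) = 0 := by
          have := cnt_le_choose Q P B (s + 1); omega
        have e3 : cnt (fun S => H S ∧ Q S) P B (s + 1) = 0 := by
          have := cnt_le_choose (fun S => H S ∧ Q S) P B (s + 1); omega
        rw [e1, e2, e3, hN0]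
        simpa using i1
      · have hN1 : 0 < B.card.choose s := by
          apply Nat.choose_pos
          by_contra h
          push Not at h
          rw [Nat.choose_eq_zero_of_lt (by omega)] at hN0
          exact lt_irrefl _ hN0
        exact (arith_step i0 i1 c d hN0 hN1).1

/-- **Strict Harris inequality** for `s`-subsets of a block. -/
theorem harris_strict (H Q : Finset α → Prop) (B P : Finset α) (s : ℕ) (hP : Disjoint P B)
    (hH : BClosed B H) (hQ : BClosed B Q) (x y : Finset α) (hx : x ∈ B.powersetCard s)
    (hy : y ∈ B.powersetCard s) (hHx : H (P ∪ x)) (hQx : Q (P ∪ x)) (hHy : ¬ H (P ∪ y))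
    (hQy : ¬ Q (P ∪ y)) :
    cnt H P B s * cnt Q P B s < B.card.choose s * cnt (fun S => H S ∧ Q S) P B s := by
  classical
  have hxy : x ≠ y := by rintro rfl; exact hHy hHx
  rcases s with _ | s
  · rw [Finset.mem_powersetCard, Finset.card_eq_zero] at hx hy
    exact absurd (hx.2.trans hy.2.symm) hxy
  have hBne : B.Nonempty := by
    rw [Finset.mem_powersetCard] at hx
    have : x.Nonempty := by rw [← Finset.card_pos, hx.2]; omega
    exact this.mono hx.1
  set m := B.max' hBne with hmdef
  set B' := B.erase m with hB'
  have hmem : m ∈ B := Finset.max'_mem _ _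
  have hins : B = insert m B' := (Finset.insert_erase hmem).symm
  have hmB : m ∉ B' := Finset.notMem_erase _ _
  have hm : ∀ i ∈ B', i < m := by
    intro i hi
    rw [hB', Finset.mem_erase] at hi
    exact lt_of_le_of_ne (Finset.le_max' _ _ hi.2) hi.1
  clear_value m B'
  subst hins
  rw [cnt_insert _ _ _ _ hmB, cnt_insert _ _ _ _ hmB, cnt_insert _ _ _ _ hmB,
    Finset.card_insert_of_notMem hmB]
  have hHB := hH.mono (Finset.subset_insert m B')
  have hQB := hQ.mono (Finset.subset_insert m B')
  have hP1 : Disjoint P B' := hP.mono_right (Finset.subset_insert _ _)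
  have hP2 : Disjoint (insert m P) B' := by
    rw [Finset.disjoint_insert_left]
    exact ⟨hmB, hP1⟩
  have i0 := harris H Q B' P (s + 1) hP1 hHB hQB
  have i1 := harris H Q B' (insert m P) s hP2 hHB hQB
  have hcard : s + 1 ≤ B'.card := by
    by_contra h
    push Not at h
    have hx' := (Finset.mem_powersetCard.mp hx)
    have hy' := (Finset.mem_powersetCard.mp hy)
    have hc : (insert m B').card = B'.card + 1 := Finset.card_insert_of_notMem hmB
    have e1 : x = insert m B' := Finset.eq_of_subset_of_card_le hx'.1 (by rw [hc, hx'.2]; omega)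
    have e2 : y = insert m B' := Finset.eq_of_subset_of_card_le hy'.1 (by rw [hc, hy'.2]; omega)
    exact hxy (e1.trans e2.symm)
  have mH := mono_count H P B' m hm hP hH s
  have mQ := mono_count Q P B' m hm hP hQ s
  have sH := exists_strict H P B' m hm hP hH s ⟨x, hx, hHx⟩ ⟨y, hy, hHy⟩
  have sQ := exists_strict Q P B' m hm hP hQ s ⟨x, hx, hQx⟩ ⟨y, hy, hQy⟩
  have c := mono_prop mH.1
  have d := mono_prop mQ.1
  have c' := mono_prop_strict (by omega) (mH.2 sH)
  have d' := mono_prop_strict (by omega) (mQ.2 sQ)
  rw [Nat.choose_succ_succ, add_comm (B'.card.choose s)]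
  exact (arith_step i0 i1 c d (Nat.choose_pos hcard) (Nat.choose_pos (by omega))).2 c' d'

end Pool.Agent.H113.MS
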