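import Pool.Agent.H113.MS.Shift

/-!
# Shifted matroidal hypergraphs are initial lex-segments
-/

set_option autoImplicit false

namespace Pool.Agent.H113.MS

variable {n k : ℕ}

section Cut

/-- the sets which are lexicographically before `T` because of an element before `t` -/
def cut (T : KS n k) (t : Fin n) : Set (KS n k) :=
  {z | ∃ m < t, m ∈ z.val ∧ m ∉ T.val ∧ ∀ i < m, (i ∈ z.val ↔ i ∈ T.val)}

theorem cut_initial (T : KS n k) (t : Fin n) : InitialLex (cut T t) := by
  rintro z ⟨m, hmt, hmz, hmT, hm⟩ R ⟨m', hm'R, hm'z, hm'⟩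
  rcases lt_trichotomy m' m with h | h | h
  · refine ⟨m', h.trans hmt, hm'R, fun h2 => hm'z ((hm m' h).mpr h2), fun i hi => ?_⟩
    rw [hm' i hi, hm i (hi.trans h)]
  · rw [h] at hm'z
    exact absurd hmz hm'z
  · refine ⟨m, hmt, (hm' m h).mpr hmz, hmT, fun i hi => ?_⟩
    rw [hm' i (hi.trans h), hm i hi]

theorem notMem_cut (T : KS n k) (t : Fin n) : T ∉ cut T t := by
  rintro ⟨m, -, h1, h2, -⟩
  exact h2 h1

/-- the block `[t, n]` -/
def block (t : Fin n) : Finset (Fin n) := Finset.univ.filter (t ≤ ·)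

theorem mem_block {t i : Fin n} : i ∈ block t ↔ t ≤ i := by simp [block]

theorem cut_congr {T : KS n k} {t : Fin n} {z z' : KS n k}
    (h : ∀ i < t, (i ∈ z.val ↔ i ∈ z'.val)) (hz : z ∈ cut T t) : z' ∈ cut T t := by
  obtain ⟨m, hmt, hmz, hmT, hm⟩ := hz
  exact ⟨m, hmt, (h m hmt).mp hmz, hmT, fun i hi => by rw [← h i (hi.trans hmt), hm i hi]⟩

/-- the family `Q` -/
def QQ (H L : Set (KS n k)) : Set (KS n k) :=
  {x | (x ∈ H ∧ ∃ x', CLE x x' ∧ x' ∈ H ∧ x' ∉ L) ∨ (x ∉ H ∧ ∀ y', CLE y' x → y' ∈ L → y' ∈ H)}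

/-- the underlying family of finite sets -/
noncomputable def und (X : Set (KS n k)) : Finset (Finset (Fin n)) :=
  letI := Classical.decPred fun S : Finset (Fin n) => ∃ T ∈ X, T.val = S
  Finset.univ.filter fun S => ∃ T ∈ X, T.val = S

theorem mem_und {X : Set (KS n k)} {S : Finset (Fin n)} : S ∈ und X ↔ ∃ T ∈ X, T.val = S := by
  unfold und
  simp

theorem mem_und' {X : Set (KS n k)} {T : KS n k} : T.val ∈ und X ↔ T ∈ X := by
  rw [mem_und]
  constructor
  · rintro ⟨T', h, h2⟩
    rwa [Subtype.ext h2] at h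
  · exact fun h => ⟨T, h, rfl⟩

theorem card_of_mem_und {X : Set (KS n k)} {S : Finset (Fin n)} (h : S ∈ und X) : S.card = k := by
  obtain ⟨T, -, rfl⟩ := mem_und.mp h
  exact T.prop

/-- a move inside of a family of `k`-subsets -/
theorem move_card {T : KS n k} {i j : Fin n} (hj : j ∈ T.val) (hi : i ∉ T.val) :
    (insert i (T.val.erase j)).card = k := by
  rw [Finset.card_insert_of_notMem (fun h => hi (Finset.mem_of_mem_erase h)),
    Finset.card_erase_of_mem hj, show T.val.card = k from T.prop]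
  have : 0 < T.val.card := Finset.card_pos.mpr ⟨j, hj⟩
  rw [show T.val.card = k from T.prop] at this
  omega

theorem bclosed_H {H : Set (KS n k)} (hH : Shifted H) (B : Finset (Fin n)) :
    BClosed B (· ∈ und H) := by
  intro S hS i j _ _ hj hij hi
  obtain ⟨T, hT, rfl⟩ := mem_und.mp hS
  exact mem_und.mpr ⟨⟨insert i (T.val.erase j), move_card hj hi⟩,
    hH T hT _ i j hj hij hi rfl, rfl⟩

theorem bclosed_Q {H : Set (KS n k)} (hH : Shifted H) (T : KS n k) (t : Fin n) :
    BClosed (block t) (· ∈ und (QQ H (cut T t))) := by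
  classical
  intro S hS i j hiB hjB hj hij hi
  obtain ⟨z, hz, rfl⟩ := mem_und.mp hS
  set z' : KS n k := ⟨insert i (z.val.erase j), move_card hj hi⟩ with hz'
  refine mem_und.mpr ⟨z', ?_, rfl⟩
  have hcle : CLE z' z := cle_of_move hj hij hi rfl
  rcases hz with ⟨hzH, x', h1, h2, h3⟩ | ⟨hzH, hall⟩
  · exact Or.inl ⟨hH.of_cle hcle hzH, x', hcle.trans h1, h2, h3⟩
  · by_cases hz'H : z' ∈ H
    · left
      refine ⟨hz'H, z', CLE.refl _, hz'H, fun hcut => ?_⟩
      have hzcut : z ∈ cut T t := by
        refine cut_congr (z := z') (fun a ha => ?_) hcut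
        have hai : a ≠ i := by
          rintro rfl
          exact absurd (mem_block.mp hiB) (not_le.mpr ha)
        have haj : a ≠ j := by
          rintro rfl
          exact absurd (mem_block.mp hjB) (not_le.mpr ha)
        change a ∈ insert i (z.val.erase j) ↔ a ∈ z.val
        rw [Finset.mem_insert, Finset.mem_erase]
        tauto
      exact hzH (hall z (CLE.refl _) hzcut)
    · exact Or.inr ⟨hz'H, fun y' h1 h2 => hall y' (h1.trans hcle) h2⟩

end Cut

/-- the combinatorial part: some permutation makes `H` meet `Q` in fewer sets -/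
theorem exists_perm {H : Set (KS n k)} (hH : Shifted H) (hni : ¬ InitialLex H) :
    ∃ L : Set (KS n k), InitialLex L ∧ ∃ π : Equiv.Perm (Fin n),
      ((act π '' H) ∩ QQ H L).ncard < (H ∩ QQ H L).ncard := by
  classical
  unfold InitialLex at hni
  push Not at hni
  obtain ⟨T, hT, S, ⟨m₀, hm₀S, hm₀T, hm₀⟩, hS⟩ := hni
  have hTc : T.val.card = k := T.prop
  have hSc : S.val.card = k := S.prop
  -- the element `t`
  have hne : (T.val.filter (m₀ < ·)).Nonempty := by
    rw [Finset.nonempty_iff_ne_empty]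
    intro h0
    have h1 : T.val ⊆ S.val.erase m₀ := by
      intro i hi
      have h2 : ¬ m₀ < i := by
        intro h3
        have : i ∈ T.val.filter (m₀ < ·) := Finset.mem_filter.mpr ⟨hi, h3⟩
        rw [h0] at this
        exact absurd this (Finset.notMem_empty _)
      have h3 : i ≠ m₀ := by rintro rfl; exact hm₀T hi
      have h4 : i < m₀ := lt_of_le_of_ne (not_lt.mp h2) h3
      exact Finset.mem_erase.mpr ⟨h3, (hm₀ i h4).mpr hi⟩
    have h2 := Finset.card_le_card h1
    rw [Finset.card_erase_of_mem hm₀S, hTc, hSc] at h2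
    have : 0 < S.val.card := Finset.card_pos.mpr ⟨m₀, hm₀S⟩
    omega
  set t := (T.val.filter (m₀ < ·)).min' hne with ht
  have htm : t ∈ T.val.filter (m₀ < ·) := Finset.min'_mem _ _
  rw [Finset.mem_filter] at htm
  have htmin : ∀ i ∈ T.val, m₀ < i → t ≤ i := fun i hi h =>
    Finset.min'_le _ _ (Finset.mem_filter.mpr ⟨hi, h⟩)
  clear_value t
  set B := block t with hB
  set L := cut T t with hL
  -- the common member
  set x₀ : KS n k := ⟨insert m₀ (T.val.erase t), move_card htm.1 hm₀T⟩ with hx₀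
  have hx₀v : x₀.val = insert m₀ (T.val.erase t) := rfl
  have hx₀H : x₀ ∈ H := hH T hT x₀ m₀ t htm.1 htm.2 hm₀T rfl
  have hx₀T : CLE x₀ T := cle_of_move htm.1 htm.2 hm₀T rfl
  have hx₀Q : x₀ ∈ QQ H L := Or.inl ⟨hx₀H, T, hx₀T, hT, notMem_cut T t⟩
  -- the common non-member
  set P₀ := x₀.val \ B with hP₀
  have hmemP : ∀ i, i ∈ P₀ ↔ i = m₀ ∨ (i ∈ T.val ∧ i < m₀) := by
    intro i
    rw [hP₀, Finset.mem_sdiff, hx₀v, Finset.mem_insert, Finset.mem_erase, hB, mem_block, not_le]
    constructor
    · rintro ⟨h1 | h1, h2⟩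
      · exact Or.inl h1
      · by_cases him : i = m₀
        · exact Or.inl him
        · right
          refine ⟨h1.2, ?_⟩
          by_contra h3
          have := htmin i h1.2 (lt_of_le_of_ne (not_lt.mp h3) (Ne.symm him))
          exact absurd h2 (not_lt.mpr this)
    · rintro (h1 | ⟨h1, h2⟩)
      · rw [h1]; exact ⟨Or.inl rfl, htm.2⟩
      · exact ⟨Or.inr ⟨(h2.trans htm.2).ne, h1⟩, h2.trans htm.2⟩
  have hPS : P₀ ⊆ S.val \ B := by
    intro i hi
    rw [Finset.mem_sdiff, hB, mem_block, not_le]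
    rcases (hmemP i).mp hi with h | ⟨h, h2⟩
    · rw [h]; exact ⟨hm₀S, htm.2⟩
    · exact ⟨(hm₀ i h2).mpr h, h2.trans htm.2⟩
  have hPB : Disjoint P₀ B := by rw [hP₀]; exact Finset.sdiff_disjoint
  have hPk : P₀.card ≤ k := by
    have := Finset.card_le_card (Finset.sdiff_subset (s := x₀.val) (t := B))
    rw [show x₀.val.card = k from x₀.prop] at this
    exact this
  obtain ⟨U, hU1, hU2, hU3⟩ := Finset.exists_subsuperset_card_eq
    (s := S.val ∩ B) (t := B) (n := k - P₀.card) Finset.inter_subset_right (by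
      have h1 := Finset.card_sdiff_add_card_inter S.val B
      have h2 := Finset.card_le_card hPS
      omega) (by
      have h1 := Finset.card_sdiff_add_card_inter x₀.val B
      have h2 := Finset.card_le_card (Finset.inter_subset_right (s₁ := x₀.val) (s₂ := B))
      rw [show x₀.val.card = k from x₀.prop, ← hP₀] at h1
      omega)
  have hPU : Disjoint P₀ U := hPB.mono_right hU2
  have hy₀c : (P₀ ∪ U).card = k := by
    rw [Finset.card_union_of_disjoint hPU, hU3]
    omega
  set y₀ : KS n k := ⟨P₀ ∪ U, hy₀c⟩ with hy₀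
  have hy₀v : y₀.val = P₀ ∪ U := rfl
  have hy₀B : x₀.val \ B = y₀.val \ B := by
    rw [hy₀v, Finset.union_sdiff_distrib, Finset.sdiff_eq_empty_iff_subset.mpr hU2,
      Finset.union_empty, Finset.sdiff_eq_self_of_disjoint hPB]
  have hcle : CLE S y₀ := by
    intro m
    by_cases hmt : t ≤ m
    · have h1 : (y₀.val.filter (· ≤ m)).card + (y₀.val.filter (¬ · ≤ m)).card = k := by
        rw [Finset.card_filter_add_card_filter_not]
        exact y₀.prop
      have h2 : (S.val.filter (· ≤ m)).card + (S.val.filter (¬ · ≤ m)).card = k := by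
        rw [Finset.card_filter_add_card_filter_not]
        exact S.prop
      have h3 : S.val.filter (¬ · ≤ m) ⊆ y₀.val.filter (¬ · ≤ m) := by
        intro i hi
        rw [Finset.mem_filter] at hi ⊢
        refine ⟨?_, hi.2⟩
        rw [hy₀v]
        apply Finset.mem_union_right
        apply hU1
        rw [Finset.mem_inter, hB, mem_block]
        exact ⟨hi.1, hmt.trans (not_le.mp hi.2).le⟩
      have h4 := Finset.card_le_card h3
      omega
    · apply Finset.card_le_card
      intro i hi
      rw [Finset.mem_filter, hy₀v, Finset.mem_union] at hi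
      rw [Finset.mem_filter]
      refine ⟨?_, hi.2⟩
      rcases hi.1 with h | h
      · exact (Finset.mem_sdiff.mp (hPS h)).1
      · have h2 := hU2 h
        rw [hB, mem_block] at h2
        exact absurd (h2.trans hi.2) hmt
  have hy₀H : y₀ ∉ H := fun h => hS (hH.of_cle hcle h)
  have hy₀L : y₀ ∈ L := by
    refine ⟨m₀, htm.2, ?_, hm₀T, fun i hi => ?_⟩
    · rw [hy₀v]
      exact Finset.mem_union_left _ ((hmemP m₀).mpr (Or.inl rfl))
    · rw [hy₀v, Finset.mem_union, hmemP]
      constructor
      · rintro ((h | h) | h)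
        · exact absurd h hi.ne
        · exact h.1
        · have h2 := hU2 h
          rw [hB, mem_block] at h2
          exact absurd (hi.trans htm.2) (not_lt.mpr h2)
      · exact fun h => Or.inl (Or.inr ⟨h, hi⟩)
  have hy₀Q : y₀ ∉ QQ H L := by
    rintro (⟨h, -⟩ | ⟨-, h⟩)
    · exact hy₀H h
    · exact hy₀H (h y₀ (CLE.refl _) hy₀L)
  -- averaging
  obtain ⟨π, -, hπ⟩ := exists_perm_lt (k := k) B (und H) (und (QQ H L))
    (fun S h => card_of_mem_und h) (fun S h => card_of_mem_und h) (bclosed_H hH B)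
    (bclosed_Q hH T t) x₀.val y₀.val y₀.prop hy₀B (mem_und'.mpr hx₀H) (mem_und'.mpr hx₀Q)
    (fun h => hy₀H (mem_und'.mp h)) (fun h => hy₀Q (mem_und'.mp h))
  refine ⟨L, cut_initial T t, π, ?_⟩
  have e1 : ((act π '' H) ∩ QQ H L).ncard =
      ((und H).filter fun S => S.map π.toEmbedding ∈ und (QQ H L)).card := by
    rw [← Set.ncard_coe_finset]
    symm
    refine Set.ncard_congr (fun S hS => act π ⟨S, card_of_mem_und
      (Finset.mem_filter.mp (Finset.mem_coe.mp hS)).1⟩) ?_ ?_ ?_
    · intro S hS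
      have hS' := Finset.mem_filter.mp (Finset.mem_coe.mp hS)
      obtain ⟨T', hT', rfl⟩ := mem_und.mp hS'.1
      refine ⟨⟨T', hT', rfl⟩, ?_⟩
      rw [← mem_und']
      exact hS'.2
    · intro S S' hS hS' h
      have := act_injective π h
      exact congrArg Subtype.val this
    · rintro _ ⟨⟨T', hT', rfl⟩, h2⟩
      refine ⟨T'.val, ?_, rfl⟩
      rw [Finset.mem_coe, Finset.mem_filter]
      exact ⟨mem_und'.mpr hT', mem_und'.mpr h2⟩
  have e2 : (H ∩ QQ H L).ncard = ((und H).filter (· ∈ und (QQ H L))).card := by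
    rw [← Set.ncard_coe_finset]
    symm
    refine Set.ncard_congr (fun S hS => (⟨S, card_of_mem_und
      (Finset.mem_filter.mp (Finset.mem_coe.mp hS)).1⟩ : KS n k)) ?_ ?_ ?_
    · intro S hS
      have hS' := Finset.mem_filter.mp (Finset.mem_coe.mp hS)
      obtain ⟨T', hT', rfl⟩ := mem_und.mp hS'.1
      exact ⟨hT', mem_und'.mp hS'.2⟩
    · intro S S' hS hS' h
      exact congrArg Subtype.val h
    · rintro T' ⟨h1, h2⟩
      refine ⟨T'.val, ?_, rfl⟩
      rw [Finset.mem_coe, Finset.mem_filter]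
      exact ⟨mem_und'.mpr h1, mem_und'.mpr h2⟩
  rw [e1, e2]
  exact hπ

/-- the matroid part: every base meets `Q` in at least as many sets as `H` -/
theorem base_inter_le (F : Type*) [Field F] {H L : Set (KS n k)} (hH : Shifted H)
    (hL : InitialLex L) (M : Matroid (KS n k)) (hE : M.E = Set.univ)
    (hM : ∀ G : Set (KS n k), M.IsBase G ↔ shift F G = H) {G : Set (KS n k)} (hG : M.IsBase G) :
    (H ∩ QQ H L).ncard ≤ (G ∩ QQ H L).ncard := by
  classical
  have hbase : M.IsBase H := (hM H).mpr (shift_eq_self F hH)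
  have hcardG : G.ncard = H.ncard := hG.ncard_eq_ncard_of_isBase hbase
  have hK : M.IsBasis (H \ QQ H L) (QQ H L)ᶜ := by
    apply (hbase.indep.subset Set.sdiff_subset).isBasis_of_forall_insert
    · exact fun z hz => hz.2
    · intro e he
      have heH : e ∉ H := fun h => he.2 ⟨h, he.1⟩
      have hy : ∃ y', CLE y' e ∧ y' ∉ H ∧ y' ∈ L := by
        by_contra hcon
        push Not at hcon
        exact he.1 (Or.inr ⟨heH, fun y' h1 h2 => by
          by_contra h3
          exact hcon y' h1 h3 h2⟩)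
      rw [← Matroid.not_indep_iff (by rw [hE]; exact Set.subset_univ _)]
      intro hind
      obtain ⟨B', hB', hIB, hBI⟩ := hind.exists_isBase_subset_union_isBase hbase
      have hcard : B'.ncard = H.ncard := hB'.ncard_eq_ncard_of_isBase hbase
      have heB : e ∈ B' := hIB (Set.mem_insert _ _)
      have hex : ∃ x ∈ H, x ∉ B' := by
        by_contra hcon
        push Not at hcon
        have h1 : insert e H ⊆ B' := by
          rintro z (hz | hz)
          · rw [hz]; exact heB
          · exact hcon z hz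
        have h2 := Set.ncard_le_ncard h1 (Set.toFinite _)
        rw [Set.ncard_insert_of_notMem heH (Set.toFinite _)] at h2
        omega
      obtain ⟨x, hxH, hxB⟩ := hex
      have hsub : B' ⊆ insert e (H \ ({x} : Set (KS n k))) := by
        intro z hz
        rcases hBI hz with (h1 | h1) | h1
        · exact Or.inl h1
        · refine Or.inr ⟨h1.1, ?_⟩
          rintro rfl
          exact hxB hz
        · refine Or.inr ⟨h1, ?_⟩
          rintro rfl
          exact hxB hz
      have heq : B' = insert e (H \ ({x} : Set (KS n k))) := by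
        apply Set.eq_of_subset_of_ncard_le hsub _ (Set.toFinite _)
        rw [Set.ncard_insert_of_notMem (fun h => heH h.1) (Set.toFinite _),
          Set.ncard_sdiff_singleton_of_mem hxH, hcard]
        have : 0 < H.ncard := (Set.ncard_pos (Set.toFinite _)).mpr ⟨x, hxH⟩
        omega
      have hxQ : x ∈ QQ H L := by
        by_contra h
        exact hxB (hIB (Or.inr ⟨hxH, h⟩))
      rcases hxQ with ⟨-, hx⟩ | ⟨h, -⟩
      · exact shift_exchange_ne F hL hH hy hx heq.ge ((hM B').mp hB')
      · exact h hxH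
  have h1 : (G \ QQ H L).ncard ≤ (H \ QQ H L).ncard := by
    have hind : M.Indep (G \ QQ H L) := hG.indep.subset Set.sdiff_subset
    have h2 := hind.encard_le_eRk_of_subset (X := (QQ H L)ᶜ) (fun z hz => hz.2)
    rw [← hK.encard_eq_eRk] at h2
    rw [← (Set.toFinite (G \ QQ H L)).cast_ncard_eq, ← (Set.toFinite (H \ QQ H L)).cast_ncard_eq] at h2
    exact_mod_cast h2
  have h3 := Set.ncard_inter_add_ncard_sdiff_eq_ncard G (QQ H L) (Set.toFinite _)
  have h4 := Set.ncard_inter_add_ncard_sdiff_eq_ncard H (QQ H L) (Set.toFinite _)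
  omega

/-- **Every shifted matroidal hypergraph is an initial lex-segment**, over every field. -/
theorem initialLex_of_matroidal (F : Type*) [Field F] {H : Set (KS n k)} (hH : Shifted H)
    (hm : Matroidal F H) : InitialLex H := by
  by_contra hni
  obtain ⟨M, hE, hM⟩ := hm
  obtain ⟨L, hL, π, hπ⟩ := exists_perm hH hni
  have h1 := base_inter_le F hH hL M hE hM ((hM _).mpr (shift_act F hH π))
  omega

end Pool.Agent.H113.MS
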