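import Pool.Agent.H113.MS.Defs

/-!
# The lexicographic and the componentwise order of the `k`-subsets of `[n]`
-/

set_option autoImplicit false

namespace Pool.Agent.H113.MS

variable {n k : ℕ}

/-- the key of a set for the lexicographic order -/
def key (S : KS n k) : Lex (Fin n → Bool) := toLex fun i => decide (i ∉ S.val)

theorem lexLT_iff (S T : KS n k) : LexLT S T ↔ key S < key T := by
  constructor
  · rintro ⟨m, h1, h2, h3⟩
    refine ⟨m, fun i hi => ?_, ?_⟩
    · change decide (i ∉ S.val) = decide (i ∉ T.val)
      rw [decide_eq_decide, h3 i hi]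
    · change decide (m ∉ S.val) < decide (m ∉ T.val)
      simp [h1, h2]
  · rintro ⟨m, h1, h2⟩
    have h2' : decide (m ∉ S.val) < decide (m ∉ T.val) := h2
    rw [Bool.lt_iff] at h2'
    refine ⟨m, ?_, ?_, fun i hi => ?_⟩
    · by_contra h
      simp [h] at h2'
    · intro h
      simp [h] at h2'
    · have := h1 i hi
      have h4 : decide (i ∉ S.val) = decide (i ∉ T.val) := this
      rw [decide_eq_decide] at h4
      tauto

theorem key_injective : Function.Injective (key : KS n k → _) := by
  intro S T h
  apply Subtype.ext
  ext i
  have : (fun i => decide (i ∉ S.val)) i = (fun i => decide (i ∉ T.val)) i :=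
    congrFun (toLex.injective h) i
  simp only [decide_eq_decide] at this
  tauto

/-- the componentwise order, expressed by counting -/
def CLE (R T : KS n k) : Prop :=
  ∀ m : Fin n, (T.val.filter (· ≤ m)).card ≤ (R.val.filter (· ≤ m)).card

theorem CLE.refl (R : KS n k) : CLE R R := fun _ => le_rfl

theorem CLE.trans {R S T : KS n k} (h1 : CLE R S) (h2 : CLE S T) : CLE R T :=
  fun m => (h2 m).trans (h1 m)

/-- a set which is componentwise below another one is equal to it or lexicographically before it -/
theorem CLE.eq_or_lexLT {R T : KS n k} (h : CLE R T) : R = T ∨ LexLT R T := by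
  classical
  by_cases hRT : R = T
  · exact Or.inl hRT
  right
  have hne : (symmDiff R.val T.val).Nonempty := by
    rw [Finset.nonempty_iff_ne_empty]
    intro h0
    exact hRT (Subtype.ext (symmDiff_eq_bot.mp h0))
  set m := (symmDiff R.val T.val).min' hne with hm
  have hmin : ∀ i < m, (i ∈ R.val ↔ i ∈ T.val) := by
    intro i hi
    by_contra hc
    have : i ∈ symmDiff R.val T.val := by
      rw [Finset.mem_symmDiff]
      tauto
    exact absurd (Finset.min'_le _ i this) (not_le.mpr hi)
  have hmem : m ∈ symmDiff R.val T.val := Finset.min'_mem _ _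
  rw [Finset.mem_symmDiff] at hmem
  rcases hmem with ⟨h1, h2⟩ | ⟨h1, h2⟩
  · exact ⟨m, h1, h2, hmin⟩
  · exfalso
    have hc := h m
    have h3 : R.val.filter (· ≤ m) = (T.val.filter (· ≤ m)).erase m := by
      ext i
      simp only [Finset.mem_filter, Finset.mem_erase]
      constructor
      · rintro ⟨h4, h5⟩
        have h6 : i ≠ m := by rintro rfl; exact h2 h4
        exact ⟨h6, (hmin i (lt_of_le_of_ne h5 h6)).mp h4, h5⟩
      · rintro ⟨h4, h5, h6⟩
        exact ⟨(hmin i (lt_of_le_of_ne h6 h4)).mpr h5, h6⟩
    have h4 : m ∈ T.val.filter (· ≤ m) := by simp [h1]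
    rw [h3, Finset.card_erase_of_mem h4] at hc
    have := Finset.card_pos.mpr ⟨m, h4⟩
    omega

/-- a shifted family is closed downwards in the componentwise order -/
theorem Shifted.down {H : Set (KS n k)} (hH : Shifted H) :
    ∀ (N : ℕ) (R T : KS n k), (T.val \ R.val).card ≤ N → CLE R T → T ∈ H → R ∈ H := by
  classical
  intro N
  induction N with
  | zero =>
    intro R T hN _ hT
    have h1 : T.val ⊆ R.val := by
      rw [← Finset.sdiff_eq_empty_iff_subset]
      exact Finset.card_eq_zero.mp (Nat.le_zero.mp hN)
    have h2 : T.val = R.val := by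
      apply Finset.eq_of_subset_of_card_le h1
      rw [show R.val.card = k from R.prop, show T.val.card = k from T.prop]
    have : T = R := Subtype.ext h2
    rwa [this] at hT
  | succ N ih =>
    intro R T hN hRT hT
    rcases hRT.eq_or_lexLT with rfl | ⟨m, hm1, hm2, hm3⟩
    · exact hT
    have hne : (T.val \ R.val).Nonempty := by
      rw [Finset.nonempty_iff_ne_empty]
      intro h0
      rw [Finset.sdiff_eq_empty_iff_subset] at h0
      have h2 : T.val = R.val := by
        apply Finset.eq_of_subset_of_card_le h0
        rw [show R.val.card = k from R.prop, show T.val.card = k from T.prop]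
      rw [h2] at hm2
      exact hm2 hm1
    set j := (T.val \ R.val).min' hne with hj
    have hjm : j ∈ T.val \ R.val := Finset.min'_mem _ _
    rw [Finset.mem_sdiff] at hjm
    have hmj : m < j := by
      rcases lt_trichotomy m j with h | h | h
      · exact h
      · rw [← h] at hjm
        exact absurd hjm.1 hm2
      · exact absurd ((hm3 j h).mpr hjm.1) hjm.2
    have hcard : (insert m (T.val.erase j)).card = k := by
      rw [Finset.card_insert_of_notMem (by
        intro h
        exact hm2 (Finset.mem_of_mem_erase h)), Finset.card_erase_of_mem hjm.1,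
        show T.val.card = k from T.prop]
      have : 0 < T.val.card := Finset.card_pos.mpr ⟨j, hjm.1⟩
      rw [show T.val.card = k from T.prop] at this
      omega
    let T' : KS n k := ⟨insert m (T.val.erase j), hcard⟩
    have hT' : T' ∈ H := hH T hT T' m j hjm.1 hmj hm2 rfl
    refine ih R T' ?_ ?_ hT'
    · have h1 : T'.val \ R.val ⊆ (T.val \ R.val).erase j := by
        intro i hi
        rw [Finset.mem_sdiff] at hi
        have h2 : i ∈ insert m (T.val.erase j) := hi.1
        rw [Finset.mem_insert, Finset.mem_erase] at h2
        rcases h2 with rfl | h2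
        · exact absurd hm1 hi.2
        · rw [Finset.mem_erase, Finset.mem_sdiff]
          exact ⟨h2.1, h2.2, hi.2⟩
      have h2 := Finset.card_le_card h1
      rw [Finset.card_erase_of_mem (Finset.mem_sdiff.mpr hjm)] at h2
      omega
    · intro p
      change ((insert m (T.val.erase j)).filter (· ≤ p)).card ≤ _
      by_cases hpj : j ≤ p
      · -- same count as for `T`
        have h1 : (insert m (T.val.erase j)).filter (· ≤ p) =
            insert m ((T.val.filter (· ≤ p)).erase j) := by
          ext i
          simp only [Finset.mem_filter, Finset.mem_insert, Finset.mem_erase]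
          constructor
          · rintro ⟨h2 | h2, h3⟩
            · exact Or.inl h2
            · exact Or.inr ⟨h2.1, h2.2, h3⟩
          · rintro (h2 | h2)
            · exact ⟨Or.inl h2, by rw [h2]; exact (hmj.le.trans hpj)⟩
            · exact ⟨Or.inr ⟨h2.1, h2.2.1⟩, h2.2.2⟩
        rw [h1, Finset.card_insert_of_notMem (by
          simp only [Finset.mem_erase, Finset.mem_filter]
          tauto), Finset.card_erase_of_mem (by simp [hjm.1, hpj])]
        have h2 : 0 < (T.val.filter (· ≤ p)).card := Finset.card_pos.mpr ⟨j, by simp [hjm.1, hpj]⟩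
        have := hRT p
        omega
      · -- below `j`, everything of `T` is in `R`
        push Not at hpj
        apply Finset.card_le_card
        intro i hi
        simp only [Finset.mem_filter, Finset.mem_insert, Finset.mem_erase] at hi ⊢
        refine ⟨?_, hi.2⟩
        rcases hi.1 with rfl | h2
        · exact hm1
        · by_contra h3
          have : i ∈ T.val \ R.val := Finset.mem_sdiff.mpr ⟨h2.2, h3⟩
          have h4 := Finset.min'_le _ i this
          exact absurd (lt_of_le_of_lt (h4.trans hi.2) hpj) (lt_irrefl _)

theorem Shifted.of_cle {H : Set (KS n k)} (hH : Shifted H) {R T : KS n k} (h : CLE R T)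
    (hT : T ∈ H) : R ∈ H :=
  hH.down _ R T le_rfl h hT

/-- one shift goes down in the componentwise order -/
theorem cle_of_move {S T : KS n k} {i j : Fin n} (hj : j ∈ S.val) (hij : i < j)
    (hi : i ∉ S.val) (hT : T.val = insert i (S.val.erase j)) : CLE T S := by
  classical
  intro p
  rw [hT]
  by_cases hpj : j ≤ p
  · have h1 : (insert i (S.val.erase j)).filter (· ≤ p) =
        insert i ((S.val.filter (· ≤ p)).erase j) := by
      ext a
      simp only [Finset.mem_filter, Finset.mem_insert, Finset.mem_erase]
      constructor
      · rintro ⟨h2 | h2, h3⟩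
        · exact Or.inl h2
        · exact Or.inr ⟨h2.1, h2.2, h3⟩
      · rintro (h2 | h2)
        · exact ⟨Or.inl h2, by rw [h2]; exact (hij.le.trans hpj)⟩
        · exact ⟨Or.inr ⟨h2.1, h2.2.1⟩, h2.2.2⟩
    rw [h1, Finset.card_insert_of_notMem (by
      simp only [Finset.mem_erase, Finset.mem_filter]
      tauto), Finset.card_erase_of_mem (by simp [hj, hpj])]
    omega
  · push Not at hpj
    apply Finset.card_le_card
    intro a ha
    simp only [Finset.mem_filter, Finset.mem_insert, Finset.mem_erase] at ha ⊢
    refine ⟨Or.inr ⟨?_, ha.1⟩, ha.2⟩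
    rintro rfl
    exact absurd (lt_of_le_of_lt ha.2 hpj) (lt_irrefl _)

end Pool.Agent.H113.MS
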