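import Pool.Agent.H113.MS.Compound

/-!
# Ranks of submatrices of the compound matrix of the generic matrix
-/

set_option autoImplicit false

namespace Pool.Agent.H113.MS

open Matrix Module

theorem le_rank_iff {m n F : Type*} [Fintype m] [Fintype n] [Field F] (A : Matrix m n F) (r : ℕ) :
    r ≤ A.rank ↔ ∃ (f : Fin r → m) (g : Fin r → n), (A.submatrix f g).det ≠ 0 := by
  constructor
  · intro h
    rw [Matrix.rank_eq_finrank_span_cols] at h
    obtain ⟨c, hc1, -, hc2⟩ := Submodule.exists_fun_fin_finrank_span_eq F (Set.range A.col)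
    choose g0 hg0 using hc1
    set g : Fin r → n := fun i => g0 (Fin.castLE h i) with hg
    have hcol : LinearIndependent F (A.submatrix id g).col := by
      have h1 : (A.submatrix id g).col = c ∘ Fin.castLE h := by
        funext i
        rw [Function.comp_apply, ← hg0]
        rfl
      rw [h1]
      exact hc2.comp _ (Fin.castLE_injective h)
    have hr : (A.submatrix id g).rank = r := by
      rw [Matrix.rank_eq_finrank_span_cols, finrank_span_eq_card hcol, Fintype.card_fin]
    have hr2 := hr
    rw [Matrix.rank_eq_finrank_span_row] at hr2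
    obtain ⟨c', hc1', -, hc2'⟩ :=
      Submodule.exists_fun_fin_finrank_span_eq F (Set.range (A.submatrix id g).row)
    choose f0 hf0 using hc1'
    set f : Fin r → m := fun i => f0 (Fin.cast hr2.symm i) with hf
    refine ⟨f, g, ?_⟩
    have hrow : LinearIndependent F (A.submatrix f g).row := by
      have h1 : (A.submatrix f g).row = c' ∘ Fin.cast hr2.symm := by
        funext i
        rw [Function.comp_apply, ← hf0]
        rfl
      rw [h1]
      exact hc2'.comp _ (Fin.cast_injective _)
    rw [Matrix.linearIndependent_rows_iff_isUnit, Matrix.isUnit_iff_isUnit_det] at hrow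
    exact hrow.ne_zero
  · rintro ⟨f, g, h⟩
    have h1 := Matrix.rank_submatrix_le A f g
    rwa [Matrix.rank_of_det_ne_zero h, Fintype.card_fin] at h1

variable {n k : ℕ}

section Basic

variable {K : Type*} [Field K]

/-- the column of the compound matrix at `T`, restricted to the rows in `L` -/
noncomputable def colv (A : Matrix (Fin n) (Fin n) K) (L : Set (KS n k)) (T : KS n k) : L → K :=
  fun R => C A R.1 T

/-- the row of the compound matrix at `R`, restricted to the columns in `G` -/
noncomputable def rowv (A : Matrix (Fin n) (Fin n) K) (G : Set (KS n k)) (R : KS n k) : G → K :=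
  fun T => C A R T.1

/-- the span of the columns in `G` -/
noncomputable def cspan (A : Matrix (Fin n) (Fin n) K) (L G : Set (KS n k)) :
    Submodule K (L → K) := Submodule.span K (colv A L '' G)

/-- the rank of the submatrix of the compound matrix with rows in `L` and columns in `G` -/
noncomputable def rk (A : Matrix (Fin n) (Fin n) K) (L G : Set (KS n k)) : ℕ :=
  finrank K (cspan A L G)

/-- the submatrix of the compound matrix -/
noncomputable def sub {R : Type*} [CommRing R] (A : Matrix (Fin n) (Fin n) R)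
    (L G : Set (KS n k)) : Matrix L G R := Matrix.of fun R T => C A R.1 T.1

theorem rk_eq_rank (A : Matrix (Fin n) (Fin n) K) (L G : Set (KS n k)) [Fintype G] :
    rk A L G = (sub A L G).rank := by
  rw [Matrix.rank_eq_finrank_span_cols]
  unfold rk cspan
  have h : colv A L '' G = Set.range (sub A L G).col := by
    ext v
    constructor
    · rintro ⟨T, hT, rfl⟩
      exact ⟨⟨T, hT⟩, rfl⟩
    · rintro ⟨T, rfl⟩
      exact ⟨T.1, T.2, rfl⟩
  rw [h]

theorem finrank_rows (A : Matrix (Fin n) (Fin n) K) (L G : Set (KS n k)) :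
    finrank K (Submodule.span K (rowv A G '' L)) = rk A L G := by
  classical
  have : Fintype G := Fintype.ofFinite _
  rw [rk_eq_rank, Matrix.rank_eq_finrank_span_row]
  have h : rowv A G '' L = Set.range (sub A L G).row := by
    ext v
    constructor
    · rintro ⟨T, hT, rfl⟩
      exact ⟨⟨T, hT⟩, rfl⟩
    · rintro ⟨T, rfl⟩
      exact ⟨T.1, T.2, rfl⟩
  rw [h]

theorem cspan_mono (A : Matrix (Fin n) (Fin n) K) (L : Set (KS n k)) {G G' : Set (KS n k)}
    (h : G ⊆ G') : cspan A L G ≤ cspan A L G' :=
  Submodule.span_mono (Set.image_mono h)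

theorem rk_mono (A : Matrix (Fin n) (Fin n) K) (L : Set (KS n k)) {G G' : Set (KS n k)}
    (h : G ⊆ G') : rk A L G ≤ rk A L G' :=
  Submodule.finrank_mono (cspan_mono A L h)

/-- linearly independent columns give a lower bound for the rank -/
theorem le_rk_of_indep (A : Matrix (Fin n) (Fin n) K) (L G : Set (KS n k))
    (h : ∀ μ : KS n k → K, (∀ T, T ∉ G → μ T = 0) → (∀ R ∈ L, ∑ T, C A R T * μ T = 0) → μ = 0) :
    G.ncard ≤ rk A L G := by
  classical
  have : Fintype G := Fintype.ofFinite _
  have hli : LinearIndependent K (fun T : G => colv A L T.1) := by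
    rw [Fintype.linearIndependent_iff]
    intro g hg T
    set μ : KS n k → K := fun T => if hT : T ∈ G then g ⟨T, hT⟩ else 0 with hμ
    have h1 : μ = 0 := by
      apply h
      · intro T hT
        simp only [hμ, dif_neg hT]
      · intro R hR
        have h2 := congrFun hg ⟨R, hR⟩
        rw [Finset.sum_apply] at h2
        have h3 : ∑ T, C A R T * μ T = ∑ T : G, C A R T.1 * μ T.1 := by
          rw [← Finset.sum_subtype (Finset.univ.filter (· ∈ G)) (by simp)
            (fun T => C A R T * μ T)]
          refine (Finset.sum_subset (Finset.subset_univ _) ?_).symm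
          intro T _ hT
          have hT' : T ∉ G := by simpa using hT
          simp only [hμ, dif_neg hT', mul_zero]
        rw [h3]
        refine Eq.trans ?_ h2
        refine Finset.sum_congr rfl fun T _ => ?_
        simp only [hμ, dif_pos T.2, Pi.smul_apply, smul_eq_mul, colv]
        rw [mul_comm]
    have h2 := congrFun h1 T.1
    simpa only [hμ, dif_pos T.2, Pi.zero_apply] using h2
  have h1 := finrank_span_eq_card hli
  unfold rk cspan
  have h2 : Set.range (fun T : G => colv A L T.1) = colv A L '' G := by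
    ext v
    constructor
    · rintro ⟨T, rfl⟩
      exact ⟨T.1, T.2, rfl⟩
    · rintro ⟨T, hT, rfl⟩
      exact ⟨⟨T, hT⟩, rfl⟩
  rw [h2] at h1
  rw [h1, ← Nat.card_eq_fintype_card, Nat.card_coe_set_eq]

end Basic

section Generic

variable {F : Type*} [Field F]

/-- the rank of the generic matrix is the largest one -/
theorem rk_le_gen {K : Type*} [Field K] (φ : F →+* K) (B : Matrix (Fin n) (Fin n) K)
    (L G : Set (KS n k)) : rk B L G ≤ rk (gen n F) L G := by
  classical
  have : Fintype G := Fintype.ofFinite _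
  have : Fintype L := Fintype.ofFinite _
  rw [rk_eq_rank, rk_eq_rank, le_rank_iff]
  obtain ⟨f, g, h⟩ := (le_rank_iff (sub B L G) _).mp le_rfl
  refine ⟨f, g, ?_⟩
  set X : Matrix (Fin n) (Fin n) (MvPolynomial (Fin n × Fin n) F) :=
    Matrix.of fun i j => MvPolynomial.X (i, j) with hX
  set ψ : MvPolynomial (Fin n × Fin n) F →+* K :=
    MvPolynomial.eval₂Hom φ (fun p => B p.1 p.2) with hψ
  have h1 : X.map ψ = B := by
    ext i j
    simp [hX, hψ]
  have h2 : X.map (algebraMap (MvPolynomial (Fin n × Fin n) F) (KK n F)) = gen n F := by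
    ext i j
    simp [hX, gen]
  have h3 : (sub B L G).submatrix f g = ((sub X L G).submatrix f g).map ψ := by
    ext i j
    change C B (f i).1 (g j).1 = ψ (C X (f i).1 (g j).1)
    rw [← C_map, h1]
  have h4 : (sub (gen n F) L G).submatrix f g = ((sub X L G).submatrix f g).map
      (algebraMap (MvPolynomial (Fin n × Fin n) F) (KK n F)) := by
    ext i j
    change C (gen n F) (f i).1 (g j).1 =
      (algebraMap (MvPolynomial (Fin n × Fin n) F) (KK n F)) (C X (f i).1 (g j).1)
    rw [← C_map, h2]
  rw [h3, ← RingHom.mapMatrix_apply, ← RingHom.map_det] at h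
  rw [h4, ← RingHom.mapMatrix_apply, ← RingHom.map_det]
  intro h5
  rw [map_eq_zero_iff _ (IsFractionRing.injective (MvPolynomial (Fin n × Fin n) F) (KK n F))] at h5
  rw [h5, map_zero] at h
  exact h rfl

/-- the generic matrix is the product of a lower and an upper triangular matrix -/
theorem gen_lu : ∃ Q U : Matrix (Fin n) (Fin n) (KK n F), gen n F = Q * U ∧
    (∀ i j, i < j → Q i j = 0) ∧ (∀ i j, j < i → U i j = 0) := by
  classical
  set A := gen n F with hA
  -- leading principal minors
  have hdet : ∀ i : Fin n, (A.submatrix (Subtype.val : {j // j < i} → Fin n)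
      (Subtype.val : {j // j < i} → Fin n)).det ≠ 0 := by
    intro i h
    set X : Matrix (Fin n) (Fin n) (MvPolynomial (Fin n × Fin n) F) :=
      Matrix.of fun i j => MvPolynomial.X (i, j) with hX
    have h4 : A.submatrix (Subtype.val : {j // j < i} → Fin n)
        (Subtype.val : {j // j < i} → Fin n) =
        (X.submatrix (Subtype.val : {j // j < i} → Fin n)
        (Subtype.val : {j // j < i} → Fin n)).map
        (algebraMap (MvPolynomial (Fin n × Fin n) F) (KK n F)) := by
      ext a b
      simp [hX, hA, gen]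
    rw [h4, ← RingHom.mapMatrix_apply, ← RingHom.map_det,
      map_eq_zero_iff _ (IsFractionRing.injective (MvPolynomial (Fin n × Fin n) F) (KK n F))] at h
    have h5 := congrArg (MvPolynomial.eval₂Hom (RingHom.id F)
      (fun p : Fin n × Fin n => if p.1 = p.2 then (1 : F) else 0)) h
    rw [map_zero, RingHom.map_det, RingHom.mapMatrix_apply] at h5
    have h6 : (X.submatrix (Subtype.val : {j // j < i} → Fin n)
        (Subtype.val : {j // j < i} → Fin n)).map (MvPolynomial.eval₂Hom (RingHom.id F)
      (fun p : Fin n × Fin n => if p.1 = p.2 then (1 : F) else 0)) = 1 := by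
      ext a b
      simp [hX, Matrix.one_apply, Subtype.ext_iff]
    rw [h6, Matrix.det_one] at h5
    exact one_ne_zero h5
  -- the elimination
  have hc : ∀ i : Fin n, ∃ c : {j // j < i} → KK n F, ∀ l, l < i →
      ∑ j : {j // j < i}, c j * A j.1 l = A i l := by
    intro i
    set Ai := A.submatrix (Subtype.val : {j // j < i} → Fin n)
      (Subtype.val : {j // j < i} → Fin n) with hAi
    refine ⟨(fun l : {j // j < i} => A i l.1) ᵥ* Ai⁻¹, fun l hl => ?_⟩
    have hu : IsUnit Ai.det := isUnit_iff_ne_zero.mpr (hdet i)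
    have h1 : ((fun l : {j // j < i} => A i l.1) ᵥ* Ai⁻¹) ᵥ* Ai = fun l => A i l.1 := by
      rw [Matrix.vecMul_vecMul, Matrix.nonsing_inv_mul _ hu, Matrix.vecMul_one]
    have h2 := congrFun h1 ⟨l, hl⟩
    rw [Matrix.vecMul, dotProduct] at h2
    exact h2
  choose c hc using hc
  set P : Matrix (Fin n) (Fin n) (KK n F) := Matrix.of fun i j =>
    if h : j < i then - c i ⟨j, h⟩ else if j = i then 1 else 0 with hP
  have hPlow : P.IsLowerTriangular := by
    intro i j hij
    have hij' : i < j := hij
    simp only [hP, Matrix.of_apply, dif_neg (not_lt.mpr hij'.le), if_neg (ne_of_gt hij')]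
  have hPd : ∀ i, P i i = 1 := by
    intro i
    simp [hP]
  have hPdet : P.det = 1 := by
    rw [Matrix.det_of_isLowerTriangular P hPlow]
    simp [hPd]
  have : Invertible P := Matrix.invertibleOfIsUnitDet P (by rw [hPdet]; exact isUnit_one)
  have hPinv : (P⁻¹).IsLowerTriangular := Matrix.blockTriangular_inv_of_blockTriangular hPlow
  have hU : ∀ i l, l < i → (P * A) i l = 0 := by
    intro i l hl
    rw [Matrix.mul_apply]
    have h1 : ∑ j, P i j * A j l = ∑ j ∈ Finset.univ.filter (· < i), P i j * A j l + A i l := by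
      rw [← Finset.sum_filter_add_sum_filter_not Finset.univ (· < i)]
      congr 1
      rw [Finset.sum_eq_single i]
      · rw [hPd, one_mul]
      · intro j hj hji
        rw [Finset.mem_filter] at hj
        simp only [hP, Matrix.of_apply, dif_neg hj.2, if_neg hji, zero_mul]
      · intro h
        simp at h
    have h2 : ∑ j ∈ Finset.univ.filter (· < i), P i j * A j l =
        ∑ j : {j // j < i}, P i j.1 * A j.1 l :=
      Finset.sum_subtype (Finset.univ.filter (· < i)) (by simp) (fun j => P i j * A j l)
    rw [h1, h2, ← hc i l hl, ← Finset.sum_add_distrib]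
    refine Finset.sum_eq_zero fun j _ => ?_
    simp only [hP, Matrix.of_apply, dif_pos j.2]
    ring
  refine ⟨P⁻¹, P * A, ?_, fun i j hij => hPinv hij, hU⟩
  rw [← Matrix.mul_assoc, Matrix.inv_mul_of_invertible, Matrix.one_mul]

/-- the upper bound for shifted families -/
theorem rk_gen_le {L H : Set (KS n k)} (hL : InitialLex L) (hH : Shifted H) :
    rk (gen n F) L H ≤ (H ∩ L).ncard := by
  classical
  obtain ⟨Q, U, hQU, hQ, hU⟩ := gen_lu (n := n) (F := F)
  rw [hQU]
  have : Fintype ↥(H ∩ L) := Fintype.ofFinite _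
  have h1 : cspan (Q * U) L H ≤
      Submodule.span (KK n F) (Set.range fun S : ↥(H ∩ L) => colv Q L S.1) := by
    unfold cspan
    rw [Submodule.span_le]
    rintro _ ⟨T, hT, rfl⟩
    have h2 : colv (Q * U) L T = ∑ S : ↥(H ∩ L), C U S.1 T • colv Q L S.1 := by
      ext R
      rw [Finset.sum_apply]
      simp only [Pi.smul_apply, smul_eq_mul, colv]
      rw [C_mul, Matrix.mul_apply,
        ← Finset.sum_subtype (Finset.univ.filter (· ∈ H ∩ L)) (by simp)
          (fun S => C U S T * C Q R.1 S)]
      symm
      refine (Finset.sum_congr rfl fun S _ => mul_comm _ _).trans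
        (Finset.sum_subset (Finset.subset_univ _) ?_)
      intro S _ hS
      have hS' : S ∉ H ∩ L := by simpa using hS
      by_contra h0
      apply hS'
      have hq : C Q R.1 S ≠ 0 := fun h => h0 (by rw [h, zero_mul])
      have hu : C U S T ≠ 0 := fun h => h0 (by rw [h, mul_zero])
      refine ⟨hH.of_cle (C_upper hU hu) hT, ?_⟩
      rcases (C_lower hQ hq).eq_or_lexLT with h | h
      · rw [h]; exact R.2
      · exact hL _ R.2 _ h
    rw [SetLike.mem_coe, h2]
    exact Submodule.sum_mem _ fun S _ => Submodule.smul_mem _ _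
      (Submodule.subset_span ⟨S, rfl⟩)
  refine (Submodule.finrank_mono h1).trans ((finrank_range_le_card _).trans ?_)
  rw [← Nat.card_eq_fintype_card, Nat.card_coe_set_eq]

/-- the lower bound given by the identity matrix -/
theorem le_rk_gen (L G : Set (KS n k)) : (G ∩ L).ncard ≤ rk (gen n F) L G := by
  classical
  refine le_trans ?_ ((rk_mono (gen n F) L (Set.inter_subset_left : G ∩ L ⊆ G)))
  refine le_trans ?_ (rk_le_gen (RingHom.id F) (1 : Matrix (Fin n) (Fin n) F) L (G ∩ L))
  apply le_rk_of_indep
  intro μ hμ h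
  funext T
  by_cases hT : T ∈ G ∩ L
  · have := h T hT.2
    rw [C_one] at this
    simpa [Matrix.one_apply] using this
  · exact hμ T hT

theorem rk_gen_eq {L H : Set (KS n k)} (hL : InitialLex L) (hH : Shifted H) :
    rk (gen n F) L H = (H ∩ L).ncard :=
  le_antisymm (rk_gen_le hL hH) (le_rk_gen L H)

/-- some lexicographically last element with a nonzero coefficient -/
theorem exists_lex_max {K : Type*} [Field K] {μ : KS n k → K} (p : KS n k → Prop)
    (h : ∃ T, p T ∧ μ T ≠ 0) :
    ∃ T, p T ∧ μ T ≠ 0 ∧ ∀ T', p T' → μ T' ≠ 0 → LexLT T T' → False := by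
  classical
  obtain ⟨T, hT, hmax⟩ := Finset.exists_max_image (Finset.univ.filter fun T => p T ∧ μ T ≠ 0)
    key (by obtain ⟨T, hT⟩ := h; exact ⟨T, by simpa using hT⟩)
  rw [Finset.mem_filter] at hT
  refine ⟨T, hT.2.1, hT.2.2, fun T' h1 h2 h3 => ?_⟩
  have := hmax T' (by simp [h1, h2])
  rw [lexLT_iff] at h3
  exact absurd this (not_le.mpr h3)

/-- adding a set which is above a missing set of `L` increases the rank -/
theorem rk_insert {L H : Set (KS n k)} (hH : Shifted H) {y y' : KS n k}
    (hyy : CLE y' y) (hy' : y' ∉ H) (hy'L : y' ∈ L) :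
    (H ∩ L).ncard + 1 ≤ rk (gen n F) L (insert y (H ∩ L)) := by
  classical
  have hy : y ∉ H := fun h => hy' (hH.of_cle hyy h)
  have hc : (insert y (H ∩ L)).ncard = (H ∩ L).ncard + 1 :=
    Set.ncard_insert_of_notMem (fun h => hy h.1) (Set.toFinite _)
  rw [← hc]
  obtain ⟨P, hP1, hP2, hP3⟩ := exists_unitri (K := F) hyy
  refine le_trans ?_ (rk_le_gen (RingHom.id F) P L _)
  apply le_rk_of_indep
  intro μ hμ h
  have hne : ∀ R T : KS n k, C P R T ≠ 0 → CLE R T := fun R T => C_upper hP1
  have h1 : μ y = 0 := by
    have h2 := h y' hy'L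
    rw [Finset.sum_eq_single y] at h2
    · rwa [hP3, one_mul] at h2
    · intro T _ hT
      by_cases hTm : T ∈ insert y (H ∩ L)
      · rcases hTm with h3 | h3
        · exact absurd h3 hT
        · have : C P y' T = 0 := by
            by_contra h4
            exact hy' (hH.of_cle (hne _ _ h4) h3.1)
          rw [this, zero_mul]
      · rw [hμ T hTm, mul_zero]
    · intro h3
      exact absurd (Finset.mem_univ _) h3
  by_contra hcon
  have : ∃ T, μ T ≠ 0 := by
    by_contra h2
    push Not at h2
    exact hcon (funext h2)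
  obtain ⟨T, -, hT, hmax⟩ := exists_lex_max (fun _ => True) (by simpa using this)
  have hTm : T ∈ insert y (H ∩ L) := by
    by_contra h2
    exact hT (hμ T h2)
  rcases hTm with h2 | h2
  · exact hT (h2 ▸ h1)
  · have h3 := h T h2.2
    rw [Finset.sum_eq_single T] at h3
    · rw [C_diag hP1 hP2, one_mul] at h3
      exact hT h3
    · intro T' _ hT'
      by_contra h4
      have h5 : C P T T' ≠ 0 := fun h => h4 (by rw [h, zero_mul])
      have h6 : μ T' ≠ 0 := fun h => h4 (by rw [h, mul_zero])
      rcases (hne _ _ h5).eq_or_lexLT with h7 | h7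
      · exact hT' h7.symm
      · exact hmax T' trivial h6 h7
    · intro h3
      exact absurd (Finset.mem_univ _) h3

/-- exchanging `x` with a minimal larger set outside of `L` does not decrease the rank -/
theorem rk_exchange {L H : Set (KS n k)} (hH : Shifted H) {x x' : KS n k}
    (hx : x ∈ L) (hx'H : x' ∈ H) (hx'L : x' ∉ L) (hxx : CLE x x')
    (hmin : ∀ z, CLE x z → CLE z x' → z ∉ L → z = x') :
    (H ∩ L).ncard ≤ rk (gen n F) L (insert x' ((H ∩ L) \ ({x} : Set (KS n k)))) := by
  classical
  have hxH : x ∈ H := hH.of_cle hxx hx'H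
  have hxne : x ≠ x' := by rintro rfl; exact hx'L hx
  have hc : (insert x' ((H ∩ L) \ {x})).ncard = (H ∩ L).ncard := by
    rw [Set.ncard_insert_of_notMem (fun h => hx'L h.1.2) (Set.toFinite _),
      Set.ncard_sdiff_singleton_of_mem (show x ∈ H ∩ L from ⟨hxH, hx⟩)]
    have : 0 < (H ∩ L).ncard := (Set.ncard_pos (Set.toFinite _)).mpr ⟨x, hxH, hx⟩
    omega
  rw [← hc]
  obtain ⟨P, hP1, hP2, hP3⟩ := exists_unitri (K := F) hxx
  have hdet : P.det = 1 := by
    rw [Matrix.det_of_isUpperTriangular (fun i j hij => hP1 i j hij)]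
    simp [hP2]
  have hu : IsUnit P.det := by rw [hdet]; exact isUnit_one
  refine le_trans ?_ (rk_le_gen (RingHom.id F) P⁻¹ L _)
  apply le_rk_of_indep
  intro μ hμ h
  have hne : ∀ R T : KS n k, C P R T ≠ 0 → CLE R T := fun R T => C_upper hP1
  set ν : KS n k → F := fun R => ∑ T, C P⁻¹ R T * μ T with hν
  have hνL : ∀ R ∈ L, ν R = 0 := h
  have hμν : ∀ S, μ S = ∑ R, C P S R * ν R := by
    intro S
    have h1 : (C P * C P⁻¹ : Matrix (KS n k) (KS n k) F) = 1 := by
      rw [← C_mul, Matrix.mul_nonsing_inv _ hu, C_one]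
    have h2 : ∑ R, C P S R * ν R = ∑ T, (C P * C P⁻¹ : Matrix (KS n k) (KS n k) F) S T * μ T := by
      simp only [hν, Matrix.mul_apply, Finset.mul_sum, Finset.sum_mul]
      rw [Finset.sum_comm]
      refine Finset.sum_congr rfl fun T _ => Finset.sum_congr rfl fun R _ => by ring
    rw [h2, h1]
    simp [Matrix.one_apply]
  -- every set in the support of `ν` is below `x'`, and `x'` is in the support
  have hsupp : ∀ R₀, ν R₀ ≠ 0 → CLE R₀ x' ∧ ν x' ≠ 0 := by
    intro R₀ hR₀
    obtain ⟨R, h1, h2, hmax⟩ := exists_lex_max (μ := ν) (fun R => CLE R₀ R)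
      (Exists.intro R₀ (And.intro (CLE.refl R₀) hR₀))
    have h3 : μ R = ν R := by
      rw [hμν, Finset.sum_eq_single R]
      · rw [C_diag hP1 hP2, one_mul]
      · intro R' _ hR'
        by_contra h4
        have h5 : C P R R' ≠ 0 := fun h => h4 (by rw [h, zero_mul])
        have h6 : ν R' ≠ 0 := fun h => h4 (by rw [h, mul_zero])
        rcases (hne _ _ h5).eq_or_lexLT with h7 | h7
        · exact hR' h7.symm
        · exact hmax R' (h1.trans (hne _ _ h5)) h6 h7
      · intro h3
        exact absurd (Finset.mem_univ _) h3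
    have h4 : R ∉ L := fun h => h2 (hνL R h)
    have h5 : R ∈ insert x' ((H ∩ L) \ {x}) := by
      by_contra h6
      exact h2 (by rw [← h3]; exact hμ R h6)
    rcases h5 with h5 | h5
    · rw [h5] at h1 h2
      exact ⟨h1, h2⟩
    · exact absurd h5.1.2 h4
  have hx0 : μ x = 0 := by
    apply hμ
    rintro (h1 | h1)
    · exact hxne h1
    · exact h1.2 rfl
  have hνx : ν x' = 0 := by
    rw [hμν, Finset.sum_eq_single x'] at hx0
    · rwa [hP3, one_mul] at hx0
    · intro R _ hR
      by_contra h4
      have h5 : C P x R ≠ 0 := fun h => h4 (by rw [h, zero_mul])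
      have h6 : ν R ≠ 0 := fun h => h4 (by rw [h, mul_zero])
      exact hR (hmin R (hne _ _ h5) (hsupp R h6).1 (fun h => h6 (hνL R h)))
    · intro h3
      exact absurd (Finset.mem_univ _) h3
  have hν0 : ∀ R, ν R = 0 := by
    intro R
    by_contra h1
    exact (hsupp R h1).2 hνx
  funext S
  rw [hμν]
  simp [hν0]

end Generic

end Pool.Agent.H113.MS
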