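import Pool.Agent.H113.MS.Rank
import Pool.Agent.H113.MS.Average

/-!
# The exterior shifting in terms of ranks, permutations, exchanges
-/

set_option autoImplicit false

namespace Pool.Agent.H113.MS

open Matrix Module

variable {n k : ℕ}

section Greedy

variable {K V : Type*} [Field K] [AddCommGroup V] [Module K V] [Module.Finite K V]

theorem greedy (v : KS n k → V) : ∀ (N : ℕ) (L : Set (KS n k)), L.ncard ≤ N → InitialLex L →
    ({S | v S ∉ Submodule.span K (v '' {R | LexLT R S})} ∩ L).ncard =
      finrank K (Submodule.span K (v '' L)) := by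
  classical
  intro N
  induction N with
  | zero =>
    intro L hL _
    have : L = ∅ := (Set.ncard_eq_zero (Set.toFinite _)).mp (Nat.le_zero.mp hL)
    subst this
    rw [Set.inter_empty, Set.ncard_empty, Set.image_empty, Submodule.span_empty, finrank_bot]
  | succ N ih =>
    intro L hN hL
    by_cases hne : L.Nonempty
    swap
    · rw [Set.not_nonempty_iff_eq_empty] at hne
      subst hne
      rw [Set.inter_empty, Set.ncard_empty, Set.image_empty, Submodule.span_empty, finrank_bot]
    obtain ⟨S, hS, hmax⟩ := Set.exists_max_image L key (Set.toFinite _) hne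
    set L' : Set (KS n k) := {R | LexLT R S} with hL'
    have hSL' : S ∉ L' := by
      intro h
      have h' : LexLT S S := h
      rw [lexLT_iff] at h'
      exact lt_irrefl _ h'
    have hLins : L = insert S L' := by
      ext R
      constructor
      · intro hR
        by_cases hRS : R = S
        · exact Or.inl hRS
        · right
          change LexLT R S
          rw [lexLT_iff]
          exact lt_of_le_of_ne (hmax R hR) (fun h => hRS (key_injective h))
      · rintro (rfl | hR)
        · exact hS
        · exact hL S hS R hR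
    have hL'i : InitialLex L' := by
      intro T hT R hR
      have hT' : LexLT T S := hT
      change LexLT R S
      rw [lexLT_iff] at *
      exact hR.trans hT'
    have hcard : L'.ncard ≤ N := by
      rw [hLins, Set.ncard_insert_of_notMem hSL' (Set.toFinite _)] at hN
      omega
    have ih' := ih L' hcard hL'i
    set J : Set (KS n k) := {S | v S ∉ Submodule.span K (v '' {R | LexLT R S})} with hJ
    rw [hLins, Set.image_insert_eq]
    by_cases hSJ : v S ∈ Submodule.span K (v '' L')
    · have h1 : J ∩ insert S L' = J ∩ L' := by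
        ext R
        constructor
        · rintro ⟨h2, h3 | h3⟩
          · rw [h3] at h2
            exact absurd hSJ h2
          · exact ⟨h2, h3⟩
        · rintro ⟨h2, h3⟩
          exact ⟨h2, Or.inr h3⟩
      rw [h1, ih', Submodule.span_insert_eq_span hSJ]
    · have h1 : J ∩ insert S L' = insert S (J ∩ L') := by
        ext R
        constructor
        · rintro ⟨h2, h3 | h3⟩
          · exact Or.inl h3
          · exact Or.inr ⟨h2, h3⟩
        · rintro (h2 | ⟨h2, h3⟩)
          · rw [h2]
            exact ⟨hSJ, Or.inl rfl⟩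
          · exact ⟨h2, Or.inr h3⟩
      rw [h1, Set.ncard_insert_of_notMem (fun h => hSL' h.2) (Set.toFinite _), ih',
        Submodule.span_insert, sup_comm, Submodule.finrank_sup_span_singleton hSJ]

end Greedy

section Generic

variable (F : Type*) [Field F]

section AnyField

variable (K : Type*) [Field K]

/-- the coordinates in `G` -/
noncomputable def coordMap (G : Set (KS n k)) : ⋀[K]^k (Fin n → K) →ₗ[K] (G → K) :=
  LinearMap.pi fun T => ((Pi.basisFun K (Fin n)).exteriorPower k).coord T.1

/-- `e_S` in the exterior power -/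
noncomputable def eV (S : KS n k) : ⋀[K]^k (Fin n → K) :=
  exteriorPower.ιMulti_family K k (fun j : Fin n => (Pi.single j 1 : Fin n → K)) S

/-- `W_G` -/
noncomputable def WV (G : Set (KS n k)) : Submodule K (⋀[K]^k (Fin n → K)) :=
  Submodule.span K {v | ∃ T : KS n k, T ∉ G ∧ v = eV K T}

theorem eV_eq (S : KS n k) : eV K S = (Pi.basisFun K (Fin n)).exteriorPower k S := by
  rw [exteriorPower.basis_apply]
  unfold eV
  congr 1
  funext j
  ext l
  simp [Pi.basisFun_apply]

theorem ker_coordMap (G : Set (KS n k)) : LinearMap.ker (coordMap K G) = WV K G := by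
  ext x
  have h1 : WV K G = Submodule.span K
      (((Pi.basisFun K (Fin n)).exteriorPower k) '' Gᶜ) := by
    unfold WV
    congr 1
    ext v
    constructor
    · rintro ⟨T, hT, rfl⟩
      exact ⟨T, hT, (eV_eq K T).symm⟩
    · rintro ⟨T, hT, rfl⟩
      exact ⟨T, hT, (eV_eq K T).symm⟩
  rw [h1, Module.Basis.mem_span_image, LinearMap.mem_ker]
  constructor
  · intro h T hT hTG
    have h2 := congrFun h ⟨T, hTG⟩
    have h3 : ((Pi.basisFun K (Fin n)).exteriorPower k).repr x T = 0 := h2
    rw [Finset.mem_coe, Finsupp.mem_support_iff] at hT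
    exact hT h3
  · intro h
    ext T
    by_contra h2
    have h3 : ((Pi.basisFun K (Fin n)).exteriorPower k).repr x T.1 ≠ 0 := h2
    exact h (Finset.mem_coe.mpr (Finsupp.mem_support_iff.mpr h3)) T.2

variable {K}

/-- `f_S` in the exterior power -/
noncomputable def fV (A : Matrix (Fin n) (Fin n) K) (S : KS n k) : ⋀[K]^k (Fin n → K) :=
  exteriorPower.ιMulti_family K k (fun i : Fin n => (A i : Fin n → K)) S

theorem coordMap_fV (A : Matrix (Fin n) (Fin n) K) (G : Set (KS n k)) (S : KS n k) :
    coordMap K G (fV A S) = rowv A G S := by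
  ext T
  unfold coordMap
  rw [LinearMap.pi_apply, Basis.coord_apply]
  exact coord_eq A S T.1

/-- from the exterior algebra to the exterior power -/
theorem mem_spanBefore (A : Matrix (Fin n) (Fin n) K) (G : Set (KS n k)) (S : KS n k) :
    wedge K (fun i => (A i : Fin n → K)) S ∈
      spanBefore K (fun j => Pi.single j 1) (fun i => A i) G S ↔
    fV A S ∈ WV K G ⊔ Submodule.span K {v | ∃ R : KS n k, LexLT R S ∧ v = fV A R} := by
  have he : ∀ T : KS n k, wedge K (fun j : Fin n => (Pi.single j 1 : Fin n → K)) T =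
      ((eV K T : ⋀[K]^k (Fin n → K)) : ExteriorAlgebra K (Fin n → K)) := fun T => rfl
  have hf : ∀ T : KS n k, wedge K (fun i => (A i : Fin n → K)) T =
      ((fV A T : ⋀[K]^k (Fin n → K)) : ExteriorAlgebra K (Fin n → K)) := fun T => rfl
  have hspan : spanBefore K (fun j : Fin n => (Pi.single j 1 : Fin n → K))
      (fun i => (A i : Fin n → K)) G S =
      (WV K G ⊔ Submodule.span K {v | ∃ R : KS n k, LexLT R S ∧ v = fV A R}).map
        (⋀[K]^k (Fin n → K)).subtype := by
    unfold WV spanBefore
    rw [← Submodule.span_union, Submodule.map_span]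
    congr 1
    ext x
    constructor
    · rintro (⟨T, hT, rfl⟩ | ⟨R, hR, rfl⟩)
      · exact ⟨eV K T, Or.inl ⟨T, hT, rfl⟩, (he T).symm⟩
      · exact ⟨fV A R, Or.inr ⟨R, hR, rfl⟩, (hf R).symm⟩
    · rintro ⟨_, (⟨T, hT, rfl⟩ | ⟨R, hR, rfl⟩), rfl⟩
      · exact Or.inl ⟨T, hT, (he T).symm⟩
      · exact Or.inr ⟨R, hR, (hf R).symm⟩
  rw [hspan, hf]
  constructor
  · rintro ⟨x, hx, hx2⟩
    have : x = fV A S := Subtype.ext hx2
    rwa [← this]
  · intro h
    exact ⟨fV A S, h, rfl⟩

theorem mem_shiftWith_iff (A : Matrix (Fin n) (Fin n) K) (G : Set (KS n k)) (S : KS n k) :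
    S ∈ shiftWith A G ↔ rowv A G S ∉
      Submodule.span K (rowv A G '' {R | LexLT R S}) := by
  have h1 : {v | ∃ R : KS n k, LexLT R S ∧ v = fV A R} = fV A '' {R | LexLT R S} := by
    ext v
    constructor
    · rintro ⟨R, hR, rfl⟩; exact ⟨R, hR, rfl⟩
    · rintro ⟨R, hR, rfl⟩; exact ⟨R, hR, rfl⟩
  have h2 : rowv A G '' {R | LexLT R S} = coordMap K G '' (fV A '' {R | LexLT R S}) := by
    rw [Set.image_image]
    refine Set.image_congr fun R _ => ?_
    rw [coordMap_fV]
  unfold shiftWith shiftOf
  rw [Set.mem_ofPred_eq, mem_spanBefore, h1, h2, ← coordMap_fV, ← Submodule.map_span, sup_comm,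
    ← ker_coordMap, ← Submodule.comap_map_eq, Submodule.mem_comap]

end AnyField

theorem mem_shift_iff (G : Set (KS n k)) (S : KS n k) :
    S ∈ shift F G ↔ rowv (gen n F) G S ∉
      Submodule.span (KK n F) (rowv (gen n F) G '' {R | LexLT R S}) :=
  mem_shiftWith_iff (gen n F) G S

/-- the shifting counts ranks -/
theorem shift_ncard (G : Set (KS n k)) {L : Set (KS n k)} (hL : InitialLex L) :
    (shift F G ∩ L).ncard = rk (gen n F) L G := by
  rw [← finrank_rows, ← greedy (rowv (gen n F) G) _ L le_rfl hL]
  congr 2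
  ext S
  exact mem_shift_iff F G S

/-- two families with the same numbers are equal -/
theorem eq_of_ncard {X Y : Set (KS n k)}
    (h : ∀ L : Set (KS n k), InitialLex L → (X ∩ L).ncard = (Y ∩ L).ncard) : X = Y := by
  classical
  have key2 : ∀ (X : Set (KS n k)) (S : KS n k), S ∈ X ↔
      (X ∩ {R | LexLT R S}).ncard < (X ∩ (insert S {R | LexLT R S})).ncard := by
    intro X S
    have hS : S ∉ {R | LexLT R S} := by
      intro h
      have h' : LexLT S S := h
      rw [lexLT_iff] at h'
      exact lt_irrefl _ h'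
    constructor
    · intro hSX
      have h1 : X ∩ (insert S {R | LexLT R S}) = insert S (X ∩ {R | LexLT R S}) := by
        rw [Set.inter_insert_of_mem hSX]
      rw [h1, Set.ncard_insert_of_notMem (fun h => hS h.2) (Set.toFinite _)]
      omega
    · intro hlt
      by_contra hSX
      rw [Set.inter_insert_of_notMem hSX] at hlt
      exact lt_irrefl _ hlt
  have hi1 : ∀ S : KS n k, InitialLex {R | LexLT R S} := by
    intro S T hT R hR
    have hT' : LexLT T S := hT
    change LexLT R S
    rw [lexLT_iff] at *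
    exact hR.trans hT'
  have hi2 : ∀ S : KS n k, InitialLex (insert S {R | LexLT R S}) := by
    intro S T hT R hR
    right
    rcases hT with rfl | hT
    · exact hR
    · exact hi1 S T hT R hR
  ext S
  rw [key2 X S, key2 Y S, h _ (hi1 S), h _ (hi2 S)]

/-- a shifted family is its own shifting -/
theorem shift_eq_self {H : Set (KS n k)} (hH : Shifted H) : shift F H = H :=
  eq_of_ncard fun _ hL => by rw [shift_ncard F H hL, rk_gen_eq hL hH]

/-- the action of the permutations on the `k`-subsets -/
def act (π : Equiv.Perm (Fin n)) (S : KS n k) : KS n k :=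
  ⟨S.val.map π.toEmbedding, by
    have h : S.val.card = k := S.prop
    change (S.val.map π.toEmbedding).card = k
    rw [Finset.card_map, h]⟩

theorem act_inv_act (π : Equiv.Perm (Fin n)) (S : KS n k) : act π⁻¹ (act π S) = S := by
  apply Subtype.ext
  change (S.val.map π.toEmbedding).map (π⁻¹).toEmbedding = S.val
  rw [← map_mul, inv_mul_cancel, map_one']

theorem act_act_inv (π : Equiv.Perm (Fin n)) (S : KS n k) : act π (act π⁻¹ S) = S := by
  apply Subtype.ext
  change (S.val.map (π⁻¹).toEmbedding).map π.toEmbedding = S.val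
  rw [← map_mul, mul_inv_cancel, map_one']

theorem act_injective (π : Equiv.Perm (Fin n)) : Function.Injective (act (k := k) π) :=
  Function.LeftInverse.injective (act_inv_act π)

/-- permuting the columns changes the minors by signs -/
theorem C_perm {K : Type*} [Field K] (A : Matrix (Fin n) (Fin n) K) (π : Equiv.Perm (Fin n))
    (T : KS n k) : ∃ ε : K, ε ≠ 0 ∧ ∀ S : KS n k,
      C (Matrix.of fun i j => A i (π⁻¹ j)) S (act π T) = ε * C A S T := by
  classical
  -- the enumeration of `T` given by the one of `π T`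
  have hmem : ∀ b : Fin k, ∃ c : Fin k, emb T c = π⁻¹ (emb (act π T) b) := by
    intro b
    rw [mem_range_emb]
    have h1 := emb_mem (act π T) b
    have h2 : emb (act π T) b ∈ T.val.map π.toEmbedding := h1
    rw [Finset.mem_map] at h2
    obtain ⟨j, hj, hj2⟩ := h2
    have h3 : π j = emb (act π T) b := hj2
    rw [← h3]
    simpa using hj
  choose τ hτ using hmem
  have hτi : Function.Injective τ := by
    intro b b' h
    have h1 : π⁻¹ (emb (act π T) b) = π⁻¹ (emb (act π T) b') := by rw [← hτ, ← hτ, h]
    exact (emb (act π T)).injective (π⁻¹.injective h1)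
  let e : Equiv.Perm (Fin k) := Equiv.ofBijective τ (Finite.injective_iff_bijective.mp hτi)
  refine ⟨((Equiv.Perm.sign e : ℤ) : K), ?_, fun S => ?_⟩
  · rcases Int.units_eq_one_or (Equiv.Perm.sign e) with h | h
    · rw [h]; simp
    · rw [h]; simp
  · unfold C
    rw [← Matrix.det_permute']
    congr 1
    ext a b
    rw [Matrix.submatrix_apply, Matrix.of_apply, Matrix.submatrix_apply, Matrix.submatrix_apply,
      ← hτ]
    rfl

theorem rk_act_le (π : Equiv.Perm (Fin n)) (L G : Set (KS n k)) :
    rk (gen n F) L G ≤ rk (gen n F) L (act π '' G) := by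
  classical
  refine le_trans (le_of_eq ?_) (rk_le_gen (algebraMap F (KK n F))
    (Matrix.of fun i j => gen n F i (π⁻¹ j)) L (act π '' G))
  choose ε hε hC using C_perm (k := k) (gen n F) π
  have hcol : ∀ T, colv (Matrix.of fun i j => gen n F i (π⁻¹ j)) L (act π T) =
      ε T • colv (gen n F) L T := by
    intro T
    ext R
    exact hC T R.1
  suffices hspan : cspan (gen n F) L G =
      cspan (Matrix.of fun i j => gen n F i (π⁻¹ j)) L (act π '' G) by
    unfold rk
    rw [hspan]
  unfold cspan
  apply le_antisymm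
  · rw [Submodule.span_le]
    rintro _ ⟨T, hT, rfl⟩
    have h1 : colv (gen n F) L T = (ε T)⁻¹ •
        colv (Matrix.of fun i j => gen n F i (π⁻¹ j)) L (act π T) := by
      rw [hcol, smul_smul, inv_mul_cancel₀ (hε T), one_smul]
    rw [SetLike.mem_coe, h1]
    exact Submodule.smul_mem _ _ (Submodule.subset_span ⟨act π T, ⟨T, hT, rfl⟩, rfl⟩)
  · rw [Submodule.span_le]
    rintro _ ⟨_, ⟨T, hT, rfl⟩, rfl⟩
    rw [SetLike.mem_coe, hcol]
    exact Submodule.smul_mem _ _ (Submodule.subset_span ⟨T, hT, rfl⟩)

theorem rk_act (π : Equiv.Perm (Fin n)) (L G : Set (KS n k)) :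
    rk (gen n F) L (act π '' G) = rk (gen n F) L G := by
  apply le_antisymm _ (rk_act_le F π L G)
  have h1 := rk_act_le F π⁻¹ L (act π '' G)
  rw [Set.image_image] at h1
  simpa only [act_inv_act, Set.image_id'] using h1

theorem shift_act {H : Set (KS n k)} (hH : Shifted H) (π : Equiv.Perm (Fin n)) :
    shift F (act π '' H) = H := by
  apply eq_of_ncard
  intro L hL
  rw [shift_ncard F _ hL, rk_act, rk_gen_eq hL hH]

/-- **The forbidden exchanges.** -/
theorem shift_exchange_ne {L H : Set (KS n k)} (hL : InitialLex L) (hH : Shifted H)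
    {x y : KS n k} (hy : ∃ y', CLE y' y ∧ y' ∉ H ∧ y' ∈ L) (hx : ∃ x', CLE x x' ∧ x' ∈ H ∧ x' ∉ L)
    {G : Set (KS n k)} (hG : insert y (H \ ({x} : Set (KS n k))) ⊆ G) : shift F G ≠ H := by
  classical
  intro hcon
  obtain ⟨y', hyy, hy'H, hy'L⟩ := hy
  have h1 := shift_ncard F G hL
  rw [hcon] at h1
  have h2 := rk_insert (F := F) hH hyy hy'H hy'L
  have hfull := rk_gen_eq (F := F) hL hH
  by_cases hxL : x ∈ L
  · -- a minimal member above `x` outside of `L`
    obtain ⟨x₁, hx₁⟩ := hx
    obtain ⟨x', hx', hmin⟩ := Set.exists_min_image {z | CLE x z ∧ z ∈ H ∧ z ∉ L} key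
      (Set.toFinite _) ⟨x₁, hx₁⟩
    have hx'mem : CLE x x' ∧ x' ∈ H ∧ x' ∉ L := hx'
    have hmin' : ∀ z, CLE x z → CLE z x' → z ∉ L → z = x' := by
      intro z hz1 hz2 hz3
      rcases hz2.eq_or_lexLT with h3 | h3
      · exact h3
      · have h4 := hmin z ⟨hz1, hH.of_cle hz2 hx'mem.2.1, hz3⟩
        rw [lexLT_iff] at h3
        exact absurd h4 (not_le.mpr h3)
    have h3 := rk_exchange (F := F) hH hxL hx'mem.2.1 hx'mem.2.2 hx'mem.1 hmin'
    -- the spans of the columns
    have s1 : cspan (gen n F) L (insert x' ((H ∩ L) \ ({x} : Set (KS n k)))) =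
        cspan (gen n F) L H := by
      apply Submodule.eq_of_le_of_finrank_le
      · apply cspan_mono
        rintro z (hz | hz)
        · rw [hz]; exact hx'mem.2.1
        · exact hz.1.1
      · have : rk (gen n F) L H ≤
            rk (gen n F) L (insert x' ((H ∩ L) \ ({x} : Set (KS n k)))) := by
          rw [hfull]; exact h3
        exact this
    have s2 : cspan (gen n F) L (insert y (H ∩ L)) ≤ cspan (gen n F) L G := by
      unfold cspan
      rw [Submodule.span_le]
      rintro _ ⟨z, hz | hz, rfl⟩
      · refine Submodule.subset_span ⟨z, hG ?_, rfl⟩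
        exact Or.inl hz
      · have h4 : colv (gen n F) L z ∈ cspan (gen n F) L H :=
          Submodule.subset_span ⟨z, hz.1, rfl⟩
        rw [← s1] at h4
        refine (cspan_mono (gen n F) L ?_) h4
        have hxne : x ≠ x' := by rintro rfl; exact hx'mem.2.2 hxL
        rintro w (hw | hw)
        · rw [hw]
          exact hG (Or.inr ⟨hx'mem.2.1, fun h => hxne h.symm⟩)
        · exact hG (Or.inr ⟨hw.1.1, hw.2⟩)
    have s3 := Submodule.finrank_mono s2
    have s4 : rk (gen n F) L (insert y (H ∩ L)) ≤ rk (gen n F) L G := s3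
    omega
  · have s2 : insert y (H ∩ L) ⊆ G := by
      rintro z (hz | hz)
      · exact hG (Or.inl hz)
      · refine hG (Or.inr ⟨hz.1, ?_⟩)
        rintro rfl
        exact hxL hz.2
    have s4 := rk_mono (gen n F) L s2
    omega

end Generic

end Pool.Agent.H113.MS
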